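import Mathlib

/-!
Splitting graphs of large treewidth (MP_8470a8): definitions.
-/

set_option autoImplicit false

open Classical

namespace Pool.Agent.TWS

/-- The graph `G` has a tree decomposition all of whose bags have at most `k` vertices. -/
def HasTD {V : Type*} (G : SimpleGraph V) (k : ℕ) : Prop :=
  ∃ m : ℕ, ∃ T : SimpleGraph (Fin m), ∃ bag : Fin m → Set V,
    T.IsTree ∧ (∀ v, ∃ i, v ∈ bag i) ∧
    (∀ u v, G.Adj u v → ∃ i, u ∈ bag i ∧ v ∈ bag i) ∧
    (∀ v, (T.induce {i | v ∈ bag i}).Connected) ∧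
    ∀ i, (bag i).ncard ≤ k

/-- The sets `φ x` are the branch sets of a model of `M` as a minor of `G`. -/
structure Model {V W : Type*} (M : SimpleGraph W) (G : SimpleGraph V) (φ : W → Set V) : Prop where
  conn : ∀ x, (G.induce (φ x)).Connected
  disj : ∀ x y, x ≠ y → Disjoint (φ x) (φ y)
  adj : ∀ x y, M.Adj x y → ∃ u ∈ φ x, ∃ v ∈ φ y, G.Adj u v

/-- A `t`-thick model of `M` in `G`. The sets `row x k` and `col x k` are connected, the sets which
belong to different vertices of `M` are disjoint, the rows of one vertex are disjoint, the columns of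
one vertex are disjoint, and every row of `x` meets every column of `x`. For adjacent `x`, `y`, the
rows (or the columns) of `x` are matched with the rows (or the columns) of `y`, and matched sets are
joined by an edge of `G`. -/
structure Thick {V W : Type*} (M : SimpleGraph W) (G : SimpleGraph V) (t : ℕ)
    (row col : W → Fin t → Set V) : Prop where
  conn_row : ∀ x k, (G.induce (row x k)).Connected
  conn_col : ∀ x k, (G.induce (col x k)).Connected
  disj : ∀ x y, x ≠ y → ∀ k l, Disjoint (row x k ∪ col x k) (row y l ∪ col y l)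
  disj_row : ∀ x k l, k ≠ l → Disjoint (row x k) (row x l)
  disj_col : ∀ x k l, k ≠ l → Disjoint (col x k) (col x l)
  meet : ∀ x k l, (row x k ∩ col x l).Nonempty
  adj : ∀ x y, M.Adj x y → ∃ p q : Fin t → Set V, (p = row x ∨ p = col x) ∧
    (q = row y ∨ q = col y) ∧ ∃ σ : Equiv.Perm (Fin t), ∀ k, ∃ u ∈ p k, ∃ v ∈ q (σ k), G.Adj u v

/-- The part of `G` which belongs to the vertices in `A`. -/
def part {V W : Type*} {t : ℕ} (row col : W → Fin t → Set V) (A : Set W) : Set V :=
  {v | ∃ x ∈ A, ∃ k, v ∈ row x k ∪ col x k}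

/-- No set of at most `z` vertices of `A` separates `A` into two parts which both contain more than
a quarter of the `m` roots `a i`. -/
def SepP {W : Type*} (M : SimpleGraph W) (A : Finset W) {m : ℕ} (a : Fin m → W) (z : ℕ) : Prop :=
  ∀ Z S T : Finset W, Z ∪ S ∪ T = A → Disjoint S T → Disjoint S Z → Disjoint T Z → Z.card ≤ z →
    (∀ u ∈ S, ∀ v ∈ T, ¬ M.Adj u v) →
    ¬ (m < 4 * (Finset.univ.filter fun i => a i ∈ S).card ∧
      m < 4 * (Finset.univ.filter fun i => a i ∈ T).card)

/-- The outer boundary of `S`. -/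
noncomputable def bd {V : Type*} [Fintype V] (G : SimpleGraph V) (S : Finset V) : Finset V :=
  Finset.univ.filter fun v => v ∉ S ∧ ∃ u ∈ S, G.Adj u v

/-- `Y` induces an `α`-expander. -/
def ExpOn {V : Type*} [Fintype V] (G : SimpleGraph V) (Y : Finset V) (α : ℝ) : Prop :=
  ∀ S ⊆ Y, 2 * S.card ≤ Y.card → α * S.card ≤ ((bd G S ∩ Y).card : ℝ)

/-- `G` is an `α`-expander. -/
def Expander {V : Type*} [Fintype V] (G : SimpleGraph V) (α : ℝ) : Prop :=
  ∀ S : Finset V, 2 * S.card ≤ Fintype.card V → α * S.card ≤ ((bd G S).card : ℝ)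

/-- `Y` has a path decomposition with bags `bag 0, …, bag (m - 1)` of size at most `k`. -/
def PD {V : Type*} (G : SimpleGraph V) (Y : Finset V) (k : ℕ) : Prop :=
  ∃ (m : ℕ) (bag : ℕ → Finset V),
    (∀ i, bag i ⊆ Y) ∧ (∀ v ∈ Y, ∃ i < m, v ∈ bag i) ∧
    (∀ u ∈ Y, ∀ v ∈ Y, G.Adj u v → ∃ i < m, u ∈ bag i ∧ v ∈ bag i) ∧
    (∀ v i j l, i ≤ j → j ≤ l → l < m → v ∈ bag i → v ∈ bag l → v ∈ bag j) ∧
    ∀ i, (bag i).card ≤ k

/-- `P` induces a connected subgraph. -/
def Cn {V : Type*} (G : SimpleGraph V) (P : Finset V) : Prop := (G.induce (P : Set V)).Connected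

/-- `B` is a set of `K` vertices each of which is joined to `r` by a connected subset of `B` with at
most `R + 1` vertices. -/
structure Cl {V : Type*} (G : SimpleGraph V) (K R : ℕ) (B : Finset V) (r : V) : Prop where
  card : B.card = K
  mem : r ∈ B
  reach : ∀ x ∈ B, ∃ P : Finset V, P ⊆ B ∧ r ∈ P ∧ x ∈ P ∧ P.card ≤ R + 1 ∧ Cn G P

/-- `𝓟` is a family of disjoint connected sets with at most `l + 1` vertices, which meet `A` and
`B`. -/
structure Links {V : Type*} (G : SimpleGraph V) (l : ℕ) (A B : Finset V)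
    (F : Finset (Finset V)) : Prop where
  disj : ∀ P ∈ F, ∀ Q ∈ F, P ≠ Q → Disjoint P Q
  card : ∀ P ∈ F, P.card ≤ l + 1
  conn : ∀ P ∈ F, Cn G P
  left : ∀ P ∈ F, ∃ x ∈ P, x ∈ A
  right : ∀ P ∈ F, ∃ x ∈ P, x ∈ B

/-! ### Small facts -/

theorem mem_bd {V : Type*} [Fintype V] {G : SimpleGraph V} {S : Finset V} {v : V} :
    v ∈ bd G S ↔ v ∉ S ∧ ∃ u ∈ S, G.Adj u v := by
  simp [bd]

theorem HasTD.mono {V : Type*} {G : SimpleGraph V} {k k' : ℕ} (h : HasTD G k) (hk : k ≤ k') :
    HasTD G k' := by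
  obtain ⟨m, T, bag, h1, h2, h3, h4, h5⟩ := h
  exact ⟨m, T, bag, h1, h2, h3, h4, fun i => (h5 i).trans hk⟩

theorem Cn.nonempty {V : Type*} {G : SimpleGraph V} {P : Finset V} (h : Cn G P) :
    P.Nonempty := by
  obtain ⟨x, hx⟩ := SimpleGraph.Connected.nonempty h
  exact ⟨x, by simpa using hx⟩

theorem Cn.singleton {V : Type*} (G : SimpleGraph V) (v : V) : Cn G {v} := by
  unfold Cn
  have h1 : Subsingleton (↑({v} : Finset V) : Set V) := by
    constructor
    rintro ⟨a, ha⟩ ⟨b, hb⟩
    simp at ha hb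
    simp [ha, hb]
  have h2 : Nonempty (↑({v} : Finset V) : Set V) := ⟨⟨v, by simp⟩⟩
  exact (SimpleGraph.connected_iff _).2 ⟨SimpleGraph.Preconnected.of_subsingleton, h2⟩

/-- A connected set which meets `S`, and which leaves `S` by no edge, is contained in `S`. -/
theorem Cn.subset {V : Type*} {G : SimpleGraph V} {P S : Finset V} (h : Cn G P) {x : V}
    (hx : x ∈ P) (hS : x ∈ S) (hno : ∀ u ∈ S, ∀ v ∈ P, G.Adj u v → v ∈ S) : P ⊆ S := by
  intro y hy
  obtain ⟨p⟩ := SimpleGraph.Connected.preconnected h ⟨x, hx⟩ ⟨y, hy⟩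
  suffices H : ∀ {a b : ((P : Set V) : Type _)} (_ : (G.induce (P : Set V)).Walk a b), (a : V) ∈ S →
      (b : V) ∈ S from H p hS
  intro a b p
  induction p with
  | nil => exact id
  | cons hab _ ih => exact fun ha => ih (hno _ ha _ (by simp) hab)

theorem Cn.union {V : Type*} {G : SimpleGraph V} {P Q : Finset V} (hP : Cn G P) (hQ : Cn G Q)
    {u v : V} (hu : u ∈ P) (hv : v ∈ Q) (huv : u = v ∨ G.Adj u v) : Cn G (P ∪ Q) := by
  unfold Cn at *
  rw [Finset.coe_union]
  rcases huv with rfl | huv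
  · exact SimpleGraph.induce_union_connected hP.preconnected hQ.preconnected
      ⟨u, by simpa using hu, by simpa using hv⟩
  · exact SimpleGraph.connected_induce_union hP.preconnected hQ.preconnected
      (by simpa using hu) (by simpa using hv) huv

end Pool.Agent.TWS
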