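import Mathlib
import Pool.Agent.TWS.Defs

/-!
TWS, module LNK: many disjoint short links between two large sets of an expander.

Take `F` with `Links G l A B F` and `|F|` maximal (`∅` is one; `F` is a finset of finsets of `V`).
Suppose `|F| < N`. `Q` := the union, `|Q| ≤ N (l+1)`. Let `E 0 = A \ Q`,
`E (j+1) = E j ∪ (bd G (E j) \ Q)`. Every `x ∈ E j` lies in a connected subset of `E j` with at most
`j + 1` vertices which meets `A`; so `E l` is disjoint from `B` (otherwise `F` is not maximal). Some
`j < l` has `l |E (j+1) \ E j| ≤ n` (the layers are disjoint). `S := E j`: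
`bd G S ⊆ Q ∪ (E (j+1) \ E j)`, so `|bd G S| ≤ N (l+1) + n/l`. If `2 |S| ≤ n`:
`α |S| ≤ |bd G S|`, `|S| ≥ |A| - |Q|`. Otherwise `T := (S ∪ bd G S)ᶜ` has `2 |T| ≤ n`,
`bd G T ⊆ bd G S`, `B \ Q ⊆ T`, so `α (|B| - |Q|) ≤ α |T| ≤ |bd G S|`.
-/

set_option autoImplicit false

open Classical

namespace Pool.Agent.TWS

/-- The layers of the breadth first search outside of `Q`. -/
private noncomputable def lnkE {V : Type*} [Fintype V] (G : SimpleGraph V) (A Q : Finset V) :
    ℕ → Finset V
  | 0 => A \ Q
  | j + 1 => lnkE G A Q j ∪ (bd G (lnkE G A Q j) \ Q)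

private theorem lnkE_mono_succ {V : Type*} [Fintype V] (G : SimpleGraph V) (A Q : Finset V)
    (j : ℕ) : lnkE G A Q j ⊆ lnkE G A Q (j + 1) := by
  rw [lnkE]
  exact Finset.subset_union_left

private theorem lnkE_mono {V : Type*} [Fintype V] (G : SimpleGraph V) (A Q : Finset V) :
    Monotone (lnkE G A Q) :=
  monotone_nat_of_le_succ (lnkE_mono_succ G A Q)

private theorem lnkE_disj {V : Type*} [Fintype V] (G : SimpleGraph V) (A Q : Finset V)
    (j : ℕ) {x : V} (hx : x ∈ lnkE G A Q j) : x ∉ Q := by
  induction j with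
  | zero =>
    rw [lnkE, Finset.mem_sdiff] at hx
    exact hx.2
  | succ j ih =>
    rw [lnkE, Finset.mem_union, Finset.mem_sdiff] at hx
    rcases hx with hx | hx
    · exact ih hx
    · exact hx.2

private theorem lnkE_reach {V : Type*} [Fintype V] (G : SimpleGraph V) (A Q : Finset V)
    (j : ℕ) : ∀ x ∈ lnkE G A Q j, ∃ P : Finset V, P ⊆ lnkE G A Q j ∧ P.card ≤ j + 1 ∧ Cn G P ∧
      x ∈ P ∧ ∃ y ∈ P, y ∈ A := by
  induction j with
  | zero =>
    intro x hx
    refine ⟨{x}, ?_, by simp, Cn.singleton G x, by simp, x, by simp, ?_⟩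
    · simpa using hx
    · rw [lnkE, Finset.mem_sdiff] at hx
      exact hx.1
  | succ j ih =>
    intro x hx
    by_cases hxj : x ∈ lnkE G A Q j
    · obtain ⟨P, h1, h2, h3, h4, h5⟩ := ih x hxj
      exact ⟨P, h1.trans (lnkE_mono_succ G A Q j), by omega, h3, h4, h5⟩
    · have hx' := hx
      rw [lnkE, Finset.mem_union, Finset.mem_sdiff] at hx'
      rcases hx' with hx' | hx'
      · exact absurd hx' hxj
      · obtain ⟨_, u, hu, hux⟩ := mem_bd.1 hx'.1
        obtain ⟨P, h1, h2, h3, h4, y, hy, hyA⟩ := ih u hu
        refine ⟨P ∪ {x}, ?_, ?_, Cn.union h3 (Cn.singleton G x) h4 (by simp) (Or.inr hux),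
          by simp, y, by simp [hy], hyA⟩
        · intro v hv
          rw [Finset.mem_union, Finset.mem_singleton] at hv
          rcases hv with hv | rfl
          · exact lnkE_mono_succ G A Q j (h1 hv)
          · exact hx
        · refine (Finset.card_union_le _ _).trans ?_
          simp
          omega

theorem exists_links {V : Type*} [Fintype V] (G : SimpleGraph V) {α : ℝ} (hα : 0 < α)
    (hexp : Expander G α) {l N : ℕ} (hl : 1 ≤ l) {A B : Finset V} {b : ℝ} (hA : b ≤ A.card)
    (hB : b ≤ B.card)
    (hpar : (N : ℝ) * (l + 1) + Fintype.card V / l < α * (b - N * (l + 1))) :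
    ∃ F : Finset (Finset V), Links G l A B F ∧ N ≤ F.card := by
  -- a maximal family
  obtain ⟨F, hF, hmax⟩ : ∃ F : Finset (Finset V), Links G l A B F ∧
      ∀ F' : Finset (Finset V), Links G l A B F' → F'.card ≤ F.card := by
    have hne : (Finset.univ.filter fun F : Finset (Finset V) => Links G l A B F).Nonempty := by
      refine ⟨∅, ?_⟩
      simp only [Finset.mem_filter, Finset.mem_univ, true_and]
      constructor <;> simp
    obtain ⟨F, hF, hmax⟩ := Finset.exists_max_image _ (fun F : Finset (Finset V) => F.card) hne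
    refine ⟨F, (Finset.mem_filter.1 hF).2, fun F' hF' => ?_⟩
    exact hmax F' (by simpa using hF')
  refine ⟨F, hF, ?_⟩
  by_contra hlt
  push Not at hlt
  set Q : Finset V := F.biUnion id with hQdef
  have hQcard : (Q.card : ℝ) ≤ N * (l + 1) := by
    have h1 : Q.card ≤ F.card * (l + 1) :=
      Finset.card_biUnion_le_card_mul F id (l + 1) (fun P hP => hF.card P hP)
    have h2 : F.card * (l + 1) ≤ N * (l + 1) := Nat.mul_le_mul_right _ hlt.le
    exact_mod_cast h1.trans h2
  -- `E l` is disjoint from `B`
  have hElB : ∀ x ∈ lnkE G A Q l, x ∉ B := by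
    intro x hx hxB
    obtain ⟨P, h1, h2, h3, h4, h5⟩ := lnkE_reach G A Q l x hx
    have hPQ : ∀ R ∈ F, Disjoint P R := by
      intro R hR
      rw [Finset.disjoint_left]
      intro v hv hvR
      exact lnkE_disj G A Q l (h1 hv) (Finset.mem_biUnion.2 ⟨R, hR, hvR⟩)
    have hPF : P ∉ F := by
      intro hP
      have := hPQ P hP
      rw [disjoint_self] at this
      rw [this] at h4
      simp at h4
    have hL : Links G l A B (insert P F) := by
      constructor
      · intro R hR R' hR' hne
        rw [Finset.mem_insert] at hR hR'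
        rcases hR with rfl | hR
        · rcases hR' with rfl | hR'
          · exact absurd rfl hne
          · exact hPQ R' hR'
        · rcases hR' with rfl | hR'
          · exact (hPQ R hR).symm
          · exact hF.disj R hR R' hR' hne
      · intro R hR
        rw [Finset.mem_insert] at hR
        rcases hR with rfl | hR
        · exact h2
        · exact hF.card R hR
      · intro R hR
        rw [Finset.mem_insert] at hR
        rcases hR with rfl | hR
        · exact h3
        · exact hF.conn R hR
      · intro R hR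
        rw [Finset.mem_insert] at hR
        rcases hR with rfl | hR
        · exact h5
        · exact hF.left R hR
      · intro R hR
        rw [Finset.mem_insert] at hR
        rcases hR with rfl | hR
        · exact ⟨x, h4, hxB⟩
        · exact hF.right R hR
    have := hmax _ hL
    rw [Finset.card_insert_of_notMem hPF] at this
    omega
  -- a thin layer
  obtain ⟨j, hjl, hthin⟩ : ∃ j < l, l * (lnkE G A Q (j + 1) \ lnkE G A Q j).card ≤
      Fintype.card V := by
    by_contra hcon
    push Not at hcon
    have hsum : ∀ k : ℕ, ∑ j ∈ Finset.range k, (lnkE G A Q (j + 1) \ lnkE G A Q j).card +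
        (lnkE G A Q 0).card = (lnkE G A Q k).card := by
      intro k
      induction k with
      | zero => simp
      | succ k ih =>
        rw [Finset.sum_range_succ]
        have := Finset.card_sdiff_add_card_eq_card (lnkE_mono_succ G A Q k)
        omega
    have h1 : ∑ _j ∈ Finset.range l, Fintype.card V <
        ∑ j ∈ Finset.range l, l * (lnkE G A Q (j + 1) \ lnkE G A Q j).card := by
      refine Finset.sum_lt_sum_of_nonempty ?_ ?_
      · exact ⟨0, Finset.mem_range.2 (by omega)⟩
      · intro i hi
        exact hcon i (Finset.mem_range.1 hi)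
    rw [← Finset.mul_sum, Finset.sum_const, Finset.card_range, smul_eq_mul] at h1
    have h2 := hsum l
    have h3 := Finset.card_le_univ (lnkE G A Q l)
    have h4 : Fintype.card V < ∑ j ∈ Finset.range l, (lnkE G A Q (j + 1) \ lnkE G A Q j).card :=
      lt_of_mul_lt_mul_left h1 (Nat.zero_le l)
    omega
  set S := lnkE G A Q j with hS
  have hlpos : (0 : ℝ) < l := by exact_mod_cast hl
  have hbdS : bd G S ⊆ Q ∪ (lnkE G A Q (j + 1) \ S) := by
    intro v hv
    rw [Finset.mem_union]
    by_cases hvQ : v ∈ Q
    · exact Or.inl hvQ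
    · refine Or.inr (Finset.mem_sdiff.2 ⟨?_, (mem_bd.1 hv).1⟩)
      rw [lnkE, Finset.mem_union, Finset.mem_sdiff]
      exact Or.inr ⟨hv, hvQ⟩
  have hbdcard : ((bd G S).card : ℝ) ≤ N * (l + 1) + Fintype.card V / l := by
    have h1 : (bd G S).card ≤ Q.card + (lnkE G A Q (j + 1) \ S).card :=
      (Finset.card_le_card hbdS).trans (Finset.card_union_le _ _)
    have h2 : ((lnkE G A Q (j + 1) \ S).card : ℝ) ≤ Fintype.card V / l := by
      rw [le_div_iff₀ hlpos, mul_comm]
      exact_mod_cast hthin
    have h3 : ((bd G S).card : ℝ) ≤ Q.card + (lnkE G A Q (j + 1) \ S).card := by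
      exact_mod_cast h1
    linarith
  have hkey : ∀ T : Finset V, b - N * (l + 1) ≤ T.card → 2 * T.card ≤ Fintype.card V →
      (bd G T).card ≤ (bd G S).card → False := by
    intro T hT h2T hbd
    have h1 := hexp T h2T
    have h2 : ((bd G T).card : ℝ) ≤ (bd G S).card := by exact_mod_cast hbd
    have h3 := mul_le_mul_of_nonneg_left hT hα.le
    linarith
  by_cases h2S : 2 * S.card ≤ Fintype.card V
  · refine hkey S ?_ h2S le_rfl
    have h1 : A.card ≤ (lnkE G A Q 0).card + Q.card := by
      rw [lnkE]
      have := Finset.card_le_card (show A ⊆ (A \ Q) ∪ Q by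
        intro v hv
        by_cases hvQ : v ∈ Q <;> simp [hv, hvQ])
      exact this.trans (Finset.card_union_le _ _)
    have h2 : (lnkE G A Q 0).card ≤ S.card :=
      Finset.card_le_card (lnkE_mono G A Q (Nat.zero_le j))
    have h3 : (A.card : ℝ) ≤ S.card + Q.card := by
      exact_mod_cast h1.trans (by omega)
    linarith
  · push Not at h2S
    refine hkey (S ∪ bd G S)ᶜ ?_ ?_ ?_
    · have h1 : B ⊆ (S ∪ bd G S)ᶜ ∪ Q := by
        intro x hx
        rw [Finset.mem_union]
        by_cases hxQ : x ∈ Q
        · exact Or.inr hxQ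
        · refine Or.inl ?_
          rw [Finset.mem_compl, Finset.mem_union]
          rintro (h | h)
          · exact hElB x (lnkE_mono G A Q hjl.le h) hx
          · have := hbdS h
            rw [Finset.mem_union] at this
            rcases this with h' | h'
            · exact hxQ h'
            · exact hElB x (lnkE_mono G A Q (Nat.succ_le_of_lt hjl) (Finset.mem_sdiff.1 h').1) hx
      have h2 : B.card ≤ (S ∪ bd G S)ᶜ.card + Q.card :=
        (Finset.card_le_card h1).trans (Finset.card_union_le _ _)
      have h3 : (B.card : ℝ) ≤ (S ∪ bd G S)ᶜ.card + Q.card := by exact_mod_cast h2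
      linarith
    · have h1 : (S ∪ bd G S)ᶜ.card + (S ∪ bd G S).card = Fintype.card V :=
        Finset.card_compl_add_card _
      have h2 : S.card ≤ (S ∪ bd G S).card := Finset.card_le_card Finset.subset_union_left
      omega
    · refine Finset.card_le_card ?_
      intro v hv
      obtain ⟨hvT, u, hu, huv⟩ := mem_bd.1 hv
      rw [Finset.mem_compl, not_not, Finset.mem_union] at hvT
      rw [Finset.mem_compl, Finset.mem_union] at hu
      push Not at hu
      rcases hvT with h | h
      · exact absurd (mem_bd.2 ⟨hu.1, v, h, huv.symm⟩) hu.2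
      · exact h

end Pool.Agent.TWS
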