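import Mathlib


/-!
TWS, module NUM: the parameters.

`l := ⌈100/α²⌉`, `q := ⌈2 (R+2)/p⌉`, `K := ⌊(1 + α/4)^R⌋` with `R` so large that `2/p ≤ K` and
`c K ≥ 6 log 2`, where `c := α²/(200 (l+1)) / (2 q^(l+1))` (an exponential in `R` beats a power of
`R`). `N := ⌊α² n / (200 (l+1))⌋`, `z := ⌊α n / (192 K)⌋`, `ε := α / (384 K)`, `n` large. With
`1 - x ≤ exp (-x)`, `x = 1/(2 q^(l+1))`: the logarithm of the product is at most
`m log 4 + log q + z log 2 - N x ≤ 3 log 2 n/K + log q + 1 - c n < 0`.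
-/

set_option autoImplicit false

open Classical

namespace Pool.Agent.TWS

private theorem num_exists_R {r D E : ℝ} (hr : 1 < r) (hD : 0 < D) (k : ℕ) :
    ∃ R : ℕ, 1 ≤ R ∧ D * (R : ℝ) ^ k + 1 ≤ r ^ R ∧ E ≤ r ^ R := by
  have h1 := tendsto_pow_const_div_const_pow_of_one_lt k hr
  have h2 : ∀ᶠ n : ℕ in Filter.atTop, (n : ℝ) ^ k / r ^ n < 1 / (2 * D) :=
    h1.eventually (gt_mem_nhds (by positivity))
  have h3 : ∀ᶠ n : ℕ in Filter.atTop, max 2 E ≤ r ^ n :=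
    (tendsto_pow_atTop_atTop_of_one_lt hr).eventually_ge_atTop _
  obtain ⟨R, ⟨hR2, hR3⟩, hR1⟩ := ((h2.and h3).and (Filter.eventually_ge_atTop 1)).exists
  refine ⟨R, hR1, ?_, (le_max_right _ _).trans hR3⟩
  have hpos : (0 : ℝ) < r ^ R := by positivity
  have h4 : (2 : ℝ) ≤ r ^ R := (le_max_left _ _).trans hR3
  rw [div_lt_div_iff₀ hpos (by positivity)] at hR2
  nlinarith

theorem params {α p : ℝ} (hα : 0 < α) (hα1 : α ≤ 1) (hp : 0 < p) :
    ∃ K R l q n0 : ℕ, ∃ ε : ℝ, 0 < ε ∧ 1 ≤ K ∧ 1 ≤ q ∧ 1 ≤ l ∧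
      (K : ℝ) ≤ (1 + α / 4) ^ R ∧ ((R : ℝ) + 2) / q + 1 / K ≤ p ∧
      ∀ n : ℕ, n0 ≤ n → 4 * K ≤ n ∧ ∃ N z : ℕ,
        (N : ℝ) * (l + 1) + n / l < α * (α * n / 40 - N * (l + 1)) ∧
        24 * (z : ℝ) * (8 * K) ≤ α * n ∧ ε * n ≤ z ∧
        ∀ m : ℕ, m * K ≤ n →
          (4 : ℝ) ^ m * q * 2 ^ z * (1 - 1 / (2 * (q : ℝ) ^ (l + 1))) ^ N < 1 := by
  obtain ⟨l, hl⟩ : ∃ l : ℕ, l = ⌈100 / α ^ 2⌉₊ := ⟨_, rfl⟩
  have hl100 : 100 / α ^ 2 ≤ (l : ℝ) := by
    rw [hl]; exact Nat.le_ceil _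
  have hα2 : (0 : ℝ) < α ^ 2 := by positivity
  have hlpos : (0 : ℝ) < l := lt_of_lt_of_le (by positivity) hl100
  have hl1 : 1 ≤ l := by
    have : 0 < l := by exact_mod_cast hlpos
    omega
  have hr : (1 : ℝ) < 1 + α / 4 := by linarith
  obtain ⟨R, hR1, hR2, hR3⟩ := num_exists_R (E := 2 / p + 1) hr
    (show 0 < 2400 * ((l : ℝ) + 1) / α ^ 2 * (6 / p + 1) ^ (l + 1) by positivity) (l + 1)
  obtain ⟨K, hKdef⟩ : ∃ K : ℕ, K = ⌊(1 + α / 4) ^ R⌋₊ := ⟨_, rfl⟩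
  have hK1 : (K : ℝ) ≤ (1 + α / 4) ^ R := by
    rw [hKdef]; exact Nat.floor_le (by positivity)
  have hK2 : (1 + α / 4) ^ R < (K : ℝ) + 1 := by
    rw [hKdef]; exact Nat.lt_floor_add_one _
  have hKp : 2 / p < (K : ℝ) := by linarith
  have hKpos : (0 : ℝ) < K := lt_trans (by positivity) hKp
  have hKone : 1 ≤ K := by
    have : 0 < K := by exact_mod_cast hKpos
    omega
  obtain ⟨q, hqdef⟩ : ∃ q : ℕ, q = ⌈2 * ((R : ℝ) + 2) / p⌉₊ := ⟨_, rfl⟩
  have hq1 : 2 * ((R : ℝ) + 2) / p ≤ q := by rw [hqdef]; exact Nat.le_ceil _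
  have hq2 : (q : ℝ) < 2 * ((R : ℝ) + 2) / p + 1 := by
    rw [hqdef]; exact Nat.ceil_lt_add_one (by positivity)
  have hqpos : (0 : ℝ) < q := lt_of_lt_of_le (by positivity) hq1
  have hqone : 1 ≤ q := by
    have : 0 < q := by exact_mod_cast hqpos
    omega
  have hR1' : (1 : ℝ) ≤ R := by exact_mod_cast hR1
  have hq3 : (q : ℝ) ≤ (6 / p + 1) * R := by
    have h1 : 2 * ((R : ℝ) + 2) / p ≤ 6 / p * R := by
      rw [div_mul_eq_mul_div]
      exact div_le_div_of_nonneg_right (by linarith) hp.le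
    nlinarith
  obtain ⟨Y, hY⟩ : ∃ Y : ℝ, Y = (q : ℝ) ^ (l + 1) := ⟨_, rfl⟩
  have hY1 : 1 ≤ Y := by
    rw [hY]; exact one_le_pow₀ (by exact_mod_cast hqone)
  have hYpos : 0 < Y := by linarith
  have hKY : 2400 * ((l : ℝ) + 1) * Y ≤ K * α ^ 2 := by
    have h1 : Y ≤ (6 / p + 1) ^ (l + 1) * (R : ℝ) ^ (l + 1) := by
      rw [hY, ← mul_pow]
      exact pow_le_pow_left₀ hqpos.le hq3 _
    have h2 : 2400 * ((l : ℝ) + 1) / α ^ 2 * Y ≤ K := by
      have h3 := mul_le_mul_of_nonneg_left h1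
        (show (0 : ℝ) ≤ 2400 * ((l : ℝ) + 1) / α ^ 2 by positivity)
      have h4 : 2400 * ((l : ℝ) + 1) / α ^ 2 * ((6 / p + 1) ^ (l + 1) * (R : ℝ) ^ (l + 1)) =
        2400 * ((l : ℝ) + 1) / α ^ 2 * (6 / p + 1) ^ (l + 1) * (R : ℝ) ^ (l + 1) := by ring
      linarith
    calc 2400 * ((l : ℝ) + 1) * Y = 2400 * ((l : ℝ) + 1) / α ^ 2 * Y * α ^ 2 := by
          field_simp
      _ ≤ K * α ^ 2 := mul_le_mul_of_nonneg_right h2 hα2.le
  obtain ⟨c, hc⟩ : ∃ c : ℝ, c = α ^ 2 / (400 * ((l : ℝ) + 1) * Y) := ⟨_, rfl⟩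
  have hcpos : 0 < c := by rw [hc]; positivity
  have hcK : 6 ≤ c * K := by
    rw [hc, div_mul_eq_mul_div, le_div_iff₀ (by positivity)]
    linarith
  refine ⟨K, R, l, q, 4 * K + ⌈2 * (Real.log q + 1) / c⌉₊ + 1 + ⌈384 * K / α⌉₊,
    α / (384 * K), by positivity, hKone, hqone, hl1, hK1, ?_, ?_⟩
  · have h1 : ((R : ℝ) + 2) / q ≤ p / 2 := by
      rw [div_le_iff₀ hqpos]
      rw [div_le_iff₀ hp] at hq1
      linarith
    have h2 : 1 / (K : ℝ) ≤ p / 2 := by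
      rw [div_le_iff₀ hKpos]
      rw [div_lt_iff₀ hp] at hKp
      linarith
    linarith
  intro n hn
  have hn1 : 4 * K ≤ n := by omega
  refine ⟨hn1, ?_⟩
  have hn2 : (⌈2 * (Real.log q + 1) / c⌉₊ : ℝ) + 1 ≤ n := by
    have : ⌈2 * (Real.log q + 1) / c⌉₊ + 1 ≤ n := by omega
    exact_mod_cast this
  have hn3 : (⌈384 * (K : ℝ) / α⌉₊ : ℝ) ≤ n := by
    have : ⌈384 * (K : ℝ) / α⌉₊ ≤ n := by omega
    exact_mod_cast this
  have hn4 : 2 * (Real.log q + 1) / c + 1 ≤ n := by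
    have := Nat.le_ceil (2 * (Real.log q + 1) / c)
    linarith
  have hn5 : 384 * (K : ℝ) / α ≤ n := by
    have := Nat.le_ceil (384 * (K : ℝ) / α)
    linarith
  have hnpos : (0 : ℝ) < n := by
    have : 0 < n := by omega
    exact_mod_cast this
  obtain ⟨N, hN⟩ : ∃ N : ℕ, N = ⌊α ^ 2 * n / (200 * ((l : ℝ) + 1))⌋₊ := ⟨_, rfl⟩
  have hN1 : (N : ℝ) ≤ α ^ 2 * n / (200 * ((l : ℝ) + 1)) := by
    rw [hN]; exact Nat.floor_le (by positivity)
  have hN2 : α ^ 2 * n / (200 * ((l : ℝ) + 1)) < N + 1 := by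
    rw [hN]; exact Nat.lt_floor_add_one _
  obtain ⟨z, hz⟩ : ∃ z : ℕ, z = ⌊α * n / (192 * K)⌋₊ := ⟨_, rfl⟩
  have hz1 : (z : ℝ) ≤ α * n / (192 * K) := by
    rw [hz]; exact Nat.floor_le (by positivity)
  have hz2 : α * n / (192 * K) < (z : ℝ) + 1 := by
    rw [hz]; exact Nat.lt_floor_add_one _
  refine ⟨N, z, ?_, ?_, ?_, ?_⟩
  · have h1 : (N : ℝ) * (l + 1) ≤ α ^ 2 * n / 200 := by
      rw [le_div_iff₀ (by positivity)] at hN1
      rw [le_div_iff₀ (by norm_num)]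
      linarith
    have h2 : (n : ℝ) / l ≤ α ^ 2 * n / 100 := by
      rw [div_le_iff₀ hlpos]
      rw [div_le_iff₀ hα2] at hl100
      nlinarith
    have h3 : α * ((N : ℝ) * (l + 1)) ≤ α ^ 2 * n / 200 := by
      have h4 : (0 : ℝ) ≤ (N : ℝ) * (l + 1) := by positivity
      nlinarith
    have h5 : 0 < α ^ 2 * n := by positivity
    nlinarith
  · rw [le_div_iff₀ (by positivity)] at hz1
    linarith
  · have h1 : 1 ≤ α * n / (384 * K) := by
      rw [le_div_iff₀ (by positivity)]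
      rw [div_le_iff₀ hα] at hn5
      linarith
    have h2 : α / (384 * K) * n = α * n / (384 * K) := by ring
    have h3 : α * n / (192 * K) = 2 * (α * n / (384 * K)) := by
      field_simp
      norm_num
    rw [h2]
    linarith
  · intro m hm
    have hmK : (m : ℝ) * K ≤ n := by exact_mod_cast hm
    obtain ⟨x, hx⟩ : ∃ x : ℝ, x = 1 / (2 * Y) := ⟨_, rfl⟩
    have hxpos : 0 < x := by rw [hx]; positivity
    have hx1 : x ≤ 1 / 2 := by
      rw [hx]
      exact one_div_le_one_div_of_le (by norm_num) (by linarith)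
    rw [← hY, ← hx]
    have e1 : (4 : ℝ) ^ m = Real.exp (m * Real.log 4) := by
      rw [mul_comm, Real.exp_mul, Real.exp_log (by norm_num), Real.rpow_natCast]
    have e2 : (2 : ℝ) ^ z = Real.exp (z * Real.log 2) := by
      rw [mul_comm, Real.exp_mul, Real.exp_log (by norm_num), Real.rpow_natCast]
    have e3 : (q : ℝ) = Real.exp (Real.log q) := (Real.exp_log hqpos).symm
    have e4 : (1 - x) ^ N ≤ Real.exp (-x * N) := by
      rw [Real.exp_mul, Real.rpow_natCast]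
      refine pow_le_pow_left₀ (by linarith) ?_ _
      have := Real.add_one_le_exp (-x)
      linarith
    have h1 : (4 : ℝ) ^ m * q * 2 ^ z * (1 - x) ^ N ≤
        Real.exp (m * Real.log 4 + Real.log q + z * Real.log 2 + -x * N) := by
      rw [Real.exp_add, Real.exp_add, Real.exp_add, ← e1, ← e2, ← e3]
      exact mul_le_mul_of_nonneg_left e4 (by positivity)
    refine lt_of_le_of_lt h1 ?_
    rw [← Real.exp_zero]
    refine Real.exp_lt_exp.2 ?_
    have hlog2 : Real.log 2 ≤ 1 := by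
      have := Real.log_two_lt_d9
      linarith
    have hlog20 : 0 < Real.log 2 := Real.log_pos (by norm_num)
    have hlog4 : Real.log 4 = 2 * Real.log 2 := by
      rw [show (4 : ℝ) = 2 ^ 2 by norm_num, Real.log_pow]
      norm_num
    have hmle : (m : ℝ) ≤ n / K := by rw [le_div_iff₀ hKpos]; exact hmK
    have hzle : (z : ℝ) ≤ n / K := by
      refine hz1.trans ?_
      rw [div_le_div_iff₀ (by positivity) hKpos]
      have h5 : 0 < (n : ℝ) * K := by positivity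
      nlinarith
    have hnK : 3 * ((n : ℝ) / K) ≤ c * n / 2 := by
      have h6 : (n : ℝ) / K * 6 ≤ (n : ℝ) / K * (c * K) :=
        mul_le_mul_of_nonneg_left hcK (by positivity)
      have h7 : (n : ℝ) / K * (c * K) = c * n := by
        field_simp
      linarith
    have hcx : c * n = x * (α ^ 2 * n / (200 * ((l : ℝ) + 1))) := by
      rw [hc, hx]
      field_simp
      norm_num
    have hNx : c * n - x ≤ x * N := by
      rw [hcx]
      nlinarith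
    have hmm : (m : ℝ) * Real.log 4 ≤ 2 * (n / K) := by
      rw [hlog4]
      have h8 : (0 : ℝ) ≤ m := Nat.cast_nonneg m
      nlinarith
    have hzz : (z : ℝ) * Real.log 2 ≤ n / K := by
      have h8 : (0 : ℝ) ≤ z := Nat.cast_nonneg z
      nlinarith
    have hfin : 2 * (Real.log q + 1) + c ≤ c * n := by
      have h9 := mul_le_mul_of_nonneg_left hn4 hcpos.le
      have h10 : c * (2 * (Real.log q + 1) / c + 1) = 2 * (Real.log q + 1) + c := by
        field_simp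
      linarith
    linarith

end Pool.Agent.TWS
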