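import Mathlib
import Pool.Agent.TWS.Defs

/-!
TWS, module GRW: growing a ball inside `L`.

Let `D 0 = {v}`, `D (j+1) = D j ∪ (bd G (D j) ∩ L)`. Every `x ∈ D j` is joined to `v` by a connected
subset of `D j` with at most `j + 1` vertices (`Cn.singleton`, `Cn.union`). If `K ≤ |D j|` for some
`j ≤ R`: take the least such `j`; if `j = 0` then `K = 1`, `B = {v}`; otherwise `B = D (j-1)` and
`K - |D (j-1)|` more vertices of `D j`. If `|D j| < K` for all `j ≤ R`: some `j < R` has
`|D (j+1)| ≤ (1 + a) |D j|` (otherwise `(1 + a)^R ≤ |D R| < K`); take `D = D j`.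
-/

set_option autoImplicit false

open Classical

namespace Pool.Agent.TWS

/-- The balls around `v` inside `L`. -/
noncomputable def gball {V : Type*} [Fintype V] (G : SimpleGraph V) (L : Finset V) (v : V) :
    ℕ → Finset V
  | 0 => {v}
  | j + 1 => gball G L v j ∪ (bd G (gball G L v j) ∩ L)

theorem gball_sub {V : Type*} [Fintype V] (G : SimpleGraph V) {L : Finset V} {v : V} (hv : v ∈ L)
    (j : ℕ) : gball G L v j ⊆ L := by
  induction j with
  | zero => simpa [gball] using hv
  | succ j ih =>
    intro x hx
    rw [gball, Finset.mem_union] at hx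
    rcases hx with hx | hx
    · exact ih hx
    · exact (Finset.mem_inter.1 hx).2

theorem gball_mem {V : Type*} [Fintype V] (G : SimpleGraph V) (L : Finset V) (v : V)
    (j : ℕ) : v ∈ gball G L v j := by
  induction j with
  | zero => simp [gball]
  | succ j ih => rw [gball]; exact Finset.mem_union_left _ ih

theorem gball_reach {V : Type*} [Fintype V] (G : SimpleGraph V) (L : Finset V) (v : V)
    (j : ℕ) : ∀ x ∈ gball G L v j, ∃ P : Finset V, P ⊆ gball G L v j ∧ v ∈ P ∧ x ∈ P ∧
      P.card ≤ j + 1 ∧ Cn G P := by
  induction j with
  | zero =>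
    intro x hx
    have hx' : x = v := by simpa [gball] using hx
    subst hx'
    exact ⟨{x}, by simp [gball], by simp, by simp, by simp, Cn.singleton G x⟩
  | succ j ih =>
    intro x hx
    rw [gball, Finset.mem_union] at hx
    rcases hx with hx | hx
    · obtain ⟨P, h1, h2, h3, h4, h5⟩ := ih x hx
      exact ⟨P, h1.trans (by rw [gball]; exact Finset.subset_union_left), h2, h3, by omega, h5⟩
    · have hx' := hx
      rw [Finset.mem_inter, mem_bd] at hx
      obtain ⟨⟨_, u, hu, hux⟩, _⟩ := hx
      obtain ⟨P, h1, h2, h3, h4, h5⟩ := ih u hu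
      refine ⟨P ∪ {x}, ?_, Finset.mem_union_left _ h2, by simp, ?_, ?_⟩
      · rw [gball]
        refine Finset.union_subset (h1.trans Finset.subset_union_left) ?_
        intro y hy
        rw [Finset.mem_singleton] at hy
        subst hy
        exact Finset.mem_union_right _ hx'
      · have := Finset.card_union_le P {x}
        rw [Finset.card_singleton] at this
        omega
      · exact h5.union (Cn.singleton G x) h3 (by simp) (Or.inr hux)

theorem grow {V : Type*} [Fintype V] (G : SimpleGraph V) {a : ℝ} (ha : 0 < a) {K R : ℕ}
    (hK : 1 ≤ K) (hR : (K : ℝ) ≤ (1 + a) ^ R) {L : Finset V} {v : V} (hv : v ∈ L) :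
    (∃ B ⊆ L, Cl G K R B v) ∨
      ∃ D ⊆ L, v ∈ D ∧ D.card < K ∧ ((bd G D ∩ L).card : ℝ) ≤ a * D.card := by
  by_cases hbig : ∃ j, j ≤ R ∧ K ≤ (gball G L v j).card
  · left
    have hj := Nat.find_spec hbig
    have hmin := fun i => Nat.find_min hbig (m := i)
    generalize Nat.find hbig = j at hj hmin
    obtain ⟨hjR, hjK⟩ := hj
    cases j with
    | zero =>
      have hK1 : K = 1 := by
        simp [gball] at hjK
        omega
      subst hK1
      refine ⟨{v}, by simpa using hv, ⟨by simp, by simp, ?_⟩⟩
      intro x hx
      have hx' : x = v := by simpa using hx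
      subst hx'
      exact ⟨{x}, by simp, by simp, by simp, by simp, Cn.singleton G x⟩
    | succ i =>
      have hi := hmin i (Nat.lt_succ_self i)
      have hlt : (gball G L v i).card < K := by
        by_contra hc
        exact hi ⟨by omega, by omega⟩
      obtain ⟨B, hB1, hB2, hB3⟩ := Finset.exists_subsuperset_card_eq
        (s := gball G L v i) (t := gball G L v (i + 1))
        (by rw [gball]; exact Finset.subset_union_left) hlt.le hjK
      refine ⟨B, hB2.trans (gball_sub G hv (i + 1)), ⟨hB3, hB1 (gball_mem G L v i), ?_⟩⟩
      intro x hx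
      by_cases hxi : x ∈ gball G L v i
      · obtain ⟨P, h1, h2, h3, h4, h5⟩ := gball_reach G L v i x hxi
        exact ⟨P, h1.trans hB1, h2, h3, by omega, h5⟩
      · have hx2 := hB2 hx
        rw [gball, Finset.mem_union] at hx2
        rcases hx2 with hx2 | hx2
        · exact absurd hx2 hxi
        · rw [Finset.mem_inter, mem_bd] at hx2
          obtain ⟨⟨_, u, hu, hux⟩, _⟩ := hx2
          obtain ⟨P, h1, h2, h3, h4, h5⟩ := gball_reach G L v i u hu
          refine ⟨P ∪ {x}, ?_, Finset.mem_union_left _ h2, by simp, ?_, ?_⟩
          · refine Finset.union_subset (h1.trans hB1) ?_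
            intro y hy
            rw [Finset.mem_singleton] at hy
            subst hy
            exact hx
          · have := Finset.card_union_le P {x}
            rw [Finset.card_singleton] at this
            omega
          · exact h5.union (Cn.singleton G x) h3 (by simp) (Or.inr hux)
  · right
    by_contra hno
    have hsmall : ∀ j, j ≤ R → (gball G L v j).card < K := by
      intro j hj
      by_contra hc
      exact hbig ⟨j, hj, by omega⟩
    have hgrow : ∀ j, j ≤ R → (1 + a) ^ j ≤ ((gball G L v j).card : ℝ) := by
      intro j
      induction j with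
      | zero => intro _; simp [gball]
      | succ j ih =>
        intro hj
        have ih' := ih (by omega)
        have hb : a * (gball G L v j).card < ((bd G (gball G L v j) ∩ L).card : ℝ) := by
          by_contra hc
          exact hno ⟨gball G L v j, gball_sub G hv j, gball_mem G L v j, hsmall j (by omega),
            not_lt.1 hc⟩
        have hdisj : Disjoint (gball G L v j) (bd G (gball G L v j) ∩ L) := by
          rw [Finset.disjoint_left]
          intro y hy hy2
          rw [Finset.mem_inter, mem_bd] at hy2
          exact hy2.1.1 hy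
        rw [gball, Finset.card_union_of_disjoint hdisj]
        push_cast
        calc (1 + a) ^ (j + 1) = (1 + a) * (1 + a) ^ j := by ring
          _ ≤ (1 + a) * (gball G L v j).card := by
            apply mul_le_mul_of_nonneg_left ih' (by linarith)
          _ = (gball G L v j).card + a * (gball G L v j).card := by ring
          _ ≤ _ := by linarith
    have h1 := hgrow R le_rfl
    have h2 := hsmall R le_rfl
    have h3 : ((gball G L v R).card : ℝ) < K := by exact_mod_cast h2
    linarith

end Pool.Agent.TWS
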