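import Mathlib
import Pool.Agent.TWS.GRW

/-!
TWS, module PCK: a packing of clusters which covers a fraction `α/8` of an expander.

Take a family of disjoint clusters with `m` maximal (`m ≤ n` as `1 ≤ K`). `U` := the union,
`L` := the complement; no cluster is contained in `L`. Suppose `|U| < α n / 8`. Take `S ⊆ L` with
`2 |S| ≤ n`, `|bd G S ∩ L| ≤ (α/4) |S|` and `|S|` maximal (`∅` is one).
Claim `n ≤ 4 |S|`: otherwise `L' := L \ (S ∪ bd G S)` is not empty, as
`|U| + |S| + |bd G S ∩ L| < n/8 + n/4 + n/16`; take `v ∈ L'` and apply `grow` (`a = α/4`) in `L'`: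
the first case is impossible, so there is `D ⊆ L'`, `|D| < K`, `|bd G D ∩ L'| ≤ (α/4) |D|`; then
`S ∪ D` contradicts the maximality (`bd G (S ∪ D) ∩ L ⊆ (bd G S ∩ L) ∪ (bd G D ∩ L')`, and
`|S ∪ D| ≤ n/4 + K ≤ n/2`). So `α n/4 ≤ α |S| ≤ |bd G S| ≤ |bd G S ∩ L| + |U| ≤
(α/4)(n/2) + |U|`, so `|U| ≥ α n / 8`.
-/

set_option autoImplicit false

open Classical

namespace Pool.Agent.TWS

theorem exists_clusters_aux {V : Type*} [Fintype V] (G : SimpleGraph V) {α : ℝ} (hα : 0 < α)
    (hα1 : α ≤ 1) (hexp : Expander G α) {K R : ℕ} (hK : 1 ≤ K)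
    (hR : (K : ℝ) ≤ (1 + α / 4) ^ R) (hn : 4 * K ≤ Fintype.card V) :
    ∃ F : Finset (Finset V), (∀ B ∈ F, ∃ r, Cl G K R B r) ∧
      (∀ B ∈ F, ∀ C ∈ F, B ≠ C → Disjoint B C) ∧ α / 8 * Fintype.card V ≤ F.card * K := by
  set 𝓕 : Finset (Finset (Finset V)) := Finset.univ.filter fun F =>
    (∀ B ∈ F, ∃ r, Cl G K R B r) ∧ (∀ B ∈ F, ∀ C ∈ F, B ≠ C → Disjoint B C) with h𝓕
  have hne : 𝓕.Nonempty := ⟨∅, by simp [h𝓕]⟩
  obtain ⟨F, hF, hFmax⟩ := Finset.exists_max_image 𝓕 Finset.card hne
  have hF1 : ∀ B ∈ F, ∃ r, Cl G K R B r := (Finset.mem_filter.1 hF).2.1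
  have hF2 : ∀ B ∈ F, ∀ C ∈ F, B ≠ C → Disjoint B C := (Finset.mem_filter.1 hF).2.2
  refine ⟨F, hF1, hF2, ?_⟩
  by_contra hcon
  rw [not_le] at hcon
  set n : ℕ := Fintype.card V with hn'
  set U : Finset V := F.biUnion (fun B => B) with hU
  have hUcard : U.card = F.card * K := by
    rw [hU, Finset.card_biUnion (fun B hB C hC hBC => hF2 B hB C hC hBC)]
    rw [Finset.sum_congr rfl (g := fun _ => K)]
    · simp
    · intro B hB
      obtain ⟨r, hr⟩ := hF1 B hB
      exact hr.card
  have hUlt : (U.card : ℝ) < α / 8 * n := by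
    rw [hUcard]; push_cast; exact hcon
  set L : Finset V := Finset.univ \ U with hL
  have hmemL : ∀ x, x ∈ L ↔ x ∉ U := by intro x; simp [hL]
  have hnoCl : ∀ B ⊆ L, ∀ r, ¬ Cl G K R B r := by
    intro B hB r hr
    have hBn : B ∉ F := by
      intro hBF
      have h1 : r ∈ U := by rw [hU]; exact Finset.mem_biUnion.2 ⟨B, hBF, hr.mem⟩
      exact (hmemL r).1 (hB hr.mem) h1
    have h2 : insert B F ∈ 𝓕 := by
      rw [h𝓕, Finset.mem_filter]
      refine ⟨Finset.mem_univ _, ?_, ?_⟩
      · intro C hC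
        rcases Finset.mem_insert.1 hC with rfl | hC
        · exact ⟨r, hr⟩
        · exact hF1 C hC
      · have hdB : ∀ C ∈ F, Disjoint B C := by
          intro C hC
          rw [Finset.disjoint_left]
          intro x hxB hxC
          exact (hmemL x).1 (hB hxB) (by rw [hU]; exact Finset.mem_biUnion.2 ⟨C, hC, hxC⟩)
        intro C hC C' hC' hne
        rcases Finset.mem_insert.1 hC with h1 | h1
        · rcases Finset.mem_insert.1 hC' with h2 | h2
          · exact absurd (h1.trans h2.symm) hne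
          · rw [h1]; exact hdB C' h2
        · rcases Finset.mem_insert.1 hC' with h2 | h2
          · rw [h2]; exact (hdB C h1).symm
          · exact hF2 C h1 C' h2 hne
    have h3 := hFmax _ h2
    rw [Finset.card_insert_of_notMem hBn] at h3
    omega
  set 𝓢 : Finset (Finset V) := Finset.univ.filter fun S =>
    S ⊆ L ∧ 2 * S.card ≤ n ∧ ((bd G S ∩ L).card : ℝ) ≤ α / 4 * S.card with h𝓢
  have hSne : 𝓢.Nonempty := by
    refine ⟨∅, ?_⟩
    rw [h𝓢, Finset.mem_filter]
    refine ⟨Finset.mem_univ _, by simp, by simp, ?_⟩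
    have : bd G (∅ : Finset V) = ∅ := by
      ext x; simp [mem_bd]
    rw [this]; simp
  obtain ⟨S, hS, hSmax⟩ := Finset.exists_max_image 𝓢 Finset.card hSne
  obtain ⟨-, hSL, hSn, hSb⟩ := Finset.mem_filter.1 hS
  have hnR : (4 : ℝ) * K ≤ n := by exact_mod_cast hn
  have hSnR : (2 : ℝ) * S.card ≤ n := by exact_mod_cast hSn
  have hnpos : (0 : ℝ) < n := by
    have : 0 < n := by omega
    exact_mod_cast this
  have hclaim : n ≤ 4 * S.card := by
    by_contra hlt
    rw [not_le] at hlt
    have hltR : (4 : ℝ) * S.card < n := by exact_mod_cast hlt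
    set L' : Finset V := L \ (S ∪ bd G S) with hL'
    have hne' : L'.Nonempty := by
      by_contra hemp
      rw [Finset.not_nonempty_iff_eq_empty] at hemp
      have hcov : (Finset.univ : Finset V) ⊆ U ∪ (S ∪ (bd G S ∩ L)) := by
        intro x _
        by_cases hxU : x ∈ U
        · exact Finset.mem_union_left _ hxU
        · have hxL := (hmemL x).2 hxU
          have : x ∉ L' := by rw [hemp]; simp
          rw [hL', Finset.mem_sdiff] at this
          have h4 : x ∈ S ∪ bd G S := by
            by_contra h5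
            exact this ⟨hxL, h5⟩
          rcases Finset.mem_union.1 h4 with h4 | h4
          · exact Finset.mem_union_right _ (Finset.mem_union_left _ h4)
          · exact Finset.mem_union_right _ (Finset.mem_union_right _
              (Finset.mem_inter.2 ⟨h4, hxL⟩))
      have h1 := Finset.card_le_card hcov
      have h2 := Finset.card_union_le U (S ∪ (bd G S ∩ L))
      have h3 := Finset.card_union_le S (bd G S ∩ L)
      rw [Finset.card_univ] at h1
      have h5 : (n : ℝ) ≤ U.card + (S.card + (bd G S ∩ L).card) := by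
        have : n ≤ U.card + (S.card + (bd G S ∩ L).card) := by omega
        exact_mod_cast this
      have h6 : α / 4 * S.card ≤ S.card := by
        have : α / 4 ≤ 1 := by linarith
        have h0 : (0 : ℝ) ≤ S.card := by positivity
        nlinarith
      have h7 : α / 8 * n ≤ 1 / 8 * n := by
        apply mul_le_mul_of_nonneg_right _ hnpos.le
        linarith
      linarith
    obtain ⟨v, hv⟩ := hne'
    have ha : 0 < α / 4 := by positivity
    rcases grow G ha hK hR hv with ⟨B, hB, hBCl⟩ | ⟨D, hD, hvD, hDK, hDb⟩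
    · exact hnoCl B (hB.trans Finset.sdiff_subset) v hBCl
    · have hDS : Disjoint S D := by
        rw [Finset.disjoint_left]
        intro x hxS hxD
        have := hD hxD
        rw [hL', Finset.mem_sdiff] at this
        exact this.2 (Finset.mem_union_left _ hxS)
      have hcard : (S ∪ D).card = S.card + D.card := Finset.card_union_of_disjoint hDS
      have hDpos : 0 < D.card := Finset.card_pos.2 ⟨v, hvD⟩
      have hmem : S ∪ D ∈ 𝓢 := by
        rw [h𝓢, Finset.mem_filter]
        refine ⟨Finset.mem_univ _, ?_, ?_, ?_⟩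
        · exact Finset.union_subset hSL (hD.trans Finset.sdiff_subset)
        · rw [hcard]; omega
        · have hsub : bd G (S ∪ D) ∩ L ⊆ (bd G S ∩ L) ∪ (bd G D ∩ L') := by
            intro x hx
            rw [Finset.mem_inter, mem_bd, Finset.mem_union, not_or] at hx
            obtain ⟨⟨⟨hxS, hxD⟩, u, hu, hux⟩, hxL⟩ := hx
            by_cases hxb : x ∈ bd G S
            · exact Finset.mem_union_left _ (Finset.mem_inter.2 ⟨hxb, hxL⟩)
            · refine Finset.mem_union_right _ (Finset.mem_inter.2 ⟨?_, ?_⟩)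
              · rw [mem_bd]
                refine ⟨hxD, u, ?_, hux⟩
                rcases Finset.mem_union.1 hu with hu | hu
                · exact absurd (mem_bd.2 ⟨hxS, u, hu, hux⟩) hxb
                · exact hu
              · rw [hL', Finset.mem_sdiff]
                refine ⟨hxL, ?_⟩
                rw [Finset.mem_union, not_or]
                exact ⟨hxS, hxb⟩
          have h1 := (Finset.card_le_card hsub).trans (Finset.card_union_le _ _)
          have h2 : ((bd G (S ∪ D) ∩ L).card : ℝ) ≤ (bd G S ∩ L).card + (bd G D ∩ L').card := by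
            exact_mod_cast h1
          rw [hcard]; push_cast
          linarith
      have h3 := hSmax _ hmem
      omega
  have hclaimR : (n : ℝ) ≤ 4 * S.card := by exact_mod_cast hclaim
  have h1 := hexp S hSn
  have hsub : bd G S ⊆ (bd G S ∩ L) ∪ U := by
    intro x hx
    by_cases hxU : x ∈ U
    · exact Finset.mem_union_right _ hxU
    · exact Finset.mem_union_left _ (Finset.mem_inter.2 ⟨hx, (hmemL x).2 hxU⟩)
  have h2 := (Finset.card_le_card hsub).trans (Finset.card_union_le _ _)
  have h3 : ((bd G S).card : ℝ) ≤ (bd G S ∩ L).card + U.card := by exact_mod_cast h2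
  have h4 : α * n ≤ α * (4 * S.card) := mul_le_mul_of_nonneg_left hclaimR hα.le
  have h5 : α * (2 * S.card) ≤ α * n := mul_le_mul_of_nonneg_left hSnR hα.le
  linarith

theorem exists_clusters {V : Type*} [Fintype V] (G : SimpleGraph V) {α : ℝ} (hα : 0 < α)
    (hα1 : α ≤ 1) (hexp : Expander G α) {K R : ℕ} (hK : 1 ≤ K)
    (hR : (K : ℝ) ≤ (1 + α / 4) ^ R) (hn : 4 * K ≤ Fintype.card V) :
    ∃ (m : ℕ) (B : Fin m → Finset V) (r : Fin m → V), (∀ i, Cl G K R (B i) (r i)) ∧
      (∀ i j, i ≠ j → Disjoint (B i) (B j)) ∧ α / 8 * Fintype.card V ≤ m * K := by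
  obtain ⟨F, hF1, hF2, hF3⟩ := exists_clusters_aux G hα hα1 hexp hK hR hn
  choose r hr using hF1
  let e := F.equivFin.symm
  refine ⟨F.card, fun i => (e i : Finset V), fun i => r (e i) (e i).2,
    fun i => hr _ (e i).2, ?_, hF3⟩
  intro i j hij
  refine hF2 _ (e i).2 _ (e j).2 ?_
  intro h
  exact hij (e.injective (Subtype.ext h))

end Pool.Agent.TWS
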