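import Mathlib
import Pool.Agent.TWS.Defs

/-!
TWS, module IND: an expectation over colourings.

`card_col`: the number of `c` with `c v = j` for all `v ∈ Q` is `q^(n - |Q|)` (a `Fintype.piFinset`
with factors `1` and `q`). `sum_col`: with `g P c := if (∀ v ∈ P, c v = j) then -1/2 else 0` the
product is `∏ P ∈ F, (1 + g P c) = ∑ F' ⊆ F, ∏ P ∈ F', g P c` (`Finset.prod_one_add`), and
`∏ P ∈ F', g P c = (-1/2)^|F'|` if `c = j` on the union of `F'`, and `0` otherwise; sum over `c` with
`card_col`; the union is disjoint, so `q^(n - |⋃ F'|) = q^n ∏ P ∈ F', q^(-|P|)`; then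
`Finset.prod_one_add` backwards.
-/

set_option autoImplicit false

open Classical

namespace Pool.Agent.TWS

theorem card_col {V : Type*} [Fintype V] {q : ℕ} (j : Fin q) (Q : Finset V) :
    (Finset.univ.filter fun c : V → Fin q => ∀ v ∈ Q, c v = j).card * q ^ Q.card =
      q ^ Fintype.card V := by
  have h1 : (Finset.univ.filter fun c : V → Fin q => ∀ v ∈ Q, c v = j) =
      Fintype.piFinset (fun v => if v ∈ Q then ({j} : Finset (Fin q)) else Finset.univ) := by
    ext c
    simp only [Finset.mem_filter, Finset.mem_univ, true_and, Fintype.mem_piFinset]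
    constructor
    · intro h v
      by_cases hv : v ∈ Q
      · simp [hv, h v hv]
      · simp [hv]
    · intro h v hv
      have := h v
      simpa [hv] using this
  rw [h1, Fintype.card_piFinset]
  have h2 : ∏ v : V, (if v ∈ Q then ({j} : Finset (Fin q)) else Finset.univ).card =
      ∏ v ∈ Qᶜ, q := by
    rw [← Finset.prod_mul_prod_compl Q]
    have e1 : ∏ v ∈ Q, (if v ∈ Q then ({j} : Finset (Fin q)) else Finset.univ).card = 1 := by
      apply Finset.prod_eq_one
      intro v hv
      simp [hv]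
    rw [e1, one_mul]
    apply Finset.prod_congr rfl
    intro v hv
    have : v ∉ Q := by simpa using hv
    simp [this]
  rw [h2, Finset.prod_const, ← pow_add, Finset.card_compl]
  congr 1
  have := Finset.card_le_univ Q
  omega

theorem sum_col {V : Type*} [Fintype V] {q : ℕ} (hq : 1 ≤ q) (j : Fin q)
    (F : Finset (Finset V)) (hF : ∀ P ∈ F, ∀ Q ∈ F, P ≠ Q → Disjoint P Q) :
    ∑ c : V → Fin q, ((1 : ℝ) / 2) ^ (F.filter fun P => ∀ v ∈ P, c v = j).card =
      (q : ℝ) ^ Fintype.card V * ∏ P ∈ F, (1 - 1 / (2 * (q : ℝ) ^ P.card)) := by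
  have hq0 : (q : ℝ) ≠ 0 := by
    have : (0 : ℝ) < q := by exact_mod_cast hq
    exact this.ne'
  have e0 : ∀ c : V → Fin q, ((1 : ℝ) / 2) ^ (F.filter fun P => ∀ v ∈ P, c v = j).card =
      ∏ P ∈ F, (1 + (if (∀ v ∈ P, c v = j) then (-1 / 2 : ℝ) else 0)) := by
    intro c
    rw [← Finset.prod_const, Finset.prod_filter]
    apply Finset.prod_congr rfl
    intro P _
    by_cases h : ∀ v ∈ P, c v = j
    · rw [if_pos h, if_pos h]; norm_num
    · rw [if_neg h, if_neg h]; norm_num
  have e1 : ∀ c : V → Fin q,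
      ∏ P ∈ F, (1 + (if (∀ v ∈ P, c v = j) then (-1 / 2 : ℝ) else 0)) =
      ∑ F' ∈ F.powerset, (if (∀ v ∈ F'.biUnion id, c v = j) then (-1 / 2 : ℝ) ^ F'.card else 0) := by
    intro c
    rw [Finset.prod_one_add]
    apply Finset.sum_congr rfl
    intro F' _
    by_cases h : ∀ v ∈ F'.biUnion id, c v = j
    · rw [if_pos h]
      have : ∀ P ∈ F', (if (∀ v ∈ P, c v = j) then (-1 / 2 : ℝ) else 0) = -1 / 2 := by
        intro P hP
        rw [if_pos]
        intro v hv
        exact h v (Finset.mem_biUnion.2 ⟨P, hP, hv⟩)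
      rw [Finset.prod_congr rfl this, Finset.prod_const]
    · rw [if_neg h]
      push Not at h
      obtain ⟨v, hv, hne⟩ := h
      obtain ⟨P, hP, hvP⟩ := Finset.mem_biUnion.1 hv
      apply Finset.prod_eq_zero hP
      rw [if_neg]
      intro hall
      exact hne (hall v hvP)
  have e2 : ∀ F' ∈ F.powerset,
      ∑ c : V → Fin q, (if (∀ v ∈ F'.biUnion id, c v = j) then (-1 / 2 : ℝ) ^ F'.card else 0) =
      (q : ℝ) ^ Fintype.card V * ∏ P ∈ F', (-(1 / (2 * (q : ℝ) ^ P.card))) := by
    intro F' hF'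
    have hsub : F' ⊆ F := Finset.mem_powerset.1 hF'
    rw [← Finset.sum_filter, Finset.sum_const, nsmul_eq_mul]
    have hc := card_col j (F'.biUnion id)
    have hcr : ((Finset.univ.filter fun c : V → Fin q => ∀ v ∈ F'.biUnion id, c v = j).card : ℝ) *
        (q : ℝ) ^ (F'.biUnion id).card = (q : ℝ) ^ Fintype.card V := by
      exact_mod_cast hc
    have hcard : (F'.biUnion id).card = ∑ P ∈ F', P.card := by
      apply Finset.card_biUnion
      intro P hP Q hQ hne
      exact hF P (hsub hP) Q (hsub hQ) hne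
    have hpow : (q : ℝ) ^ (F'.biUnion id).card = ∏ P ∈ F', (q : ℝ) ^ P.card := by
      rw [hcard, Finset.prod_pow_eq_pow_sum]
    have hprod : ∏ P ∈ F', (-(1 / (2 * (q : ℝ) ^ P.card))) =
        (-1 / 2 : ℝ) ^ F'.card * (∏ P ∈ F', (q : ℝ) ^ P.card)⁻¹ := by
      rw [← Finset.prod_inv_distrib, ← Finset.prod_const, ← Finset.prod_mul_distrib]
      apply Finset.prod_congr rfl
      intro P _
      have : (q : ℝ) ^ P.card ≠ 0 := pow_ne_zero _ hq0
      field_simp
    rw [hprod, ← hcr, hpow]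
    have hne : ∏ P ∈ F', (q : ℝ) ^ P.card ≠ 0 := by
      rw [Finset.prod_ne_zero_iff]
      intro P _
      exact pow_ne_zero _ hq0
    field_simp
  calc ∑ c : V → Fin q, ((1 : ℝ) / 2) ^ (F.filter fun P => ∀ v ∈ P, c v = j).card
      = ∑ c : V → Fin q, ∑ F' ∈ F.powerset,
          (if (∀ v ∈ F'.biUnion id, c v = j) then (-1 / 2 : ℝ) ^ F'.card else 0) := by
        apply Finset.sum_congr rfl
        intro c _
        rw [e0 c, e1 c]
    _ = ∑ F' ∈ F.powerset, (q : ℝ) ^ Fintype.card V *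
          ∏ P ∈ F', (-(1 / (2 * (q : ℝ) ^ P.card))) := by
        rw [Finset.sum_comm]
        exact Finset.sum_congr rfl e2
    _ = (q : ℝ) ^ Fintype.card V * ∏ P ∈ F, (1 - 1 / (2 * (q : ℝ) ^ P.card)) := by
        rw [← Finset.mul_sum, ← Finset.prod_one_add]
        congr 1

end Pool.Agent.TWS
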