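import Mathlib
import Pool.Agent.TWS.IND

/-!
TWS, module SMP: a small set which contains many members of each of the families.

Suppose that for every colouring `c : V → Fin q` there are a colour `j` and an `i` such that at most
`z` members of `F i` have colour `j`. Then
`q^n ≤ ∑ c, ∑ j, ∑ i, 2^z (1/2)^(number of members of F i of colour j)
= 2^z ∑ j, ∑ i, q^n ∏ (1 - 1/(2 q^|P|)) ≤ 2^z q |ι| q^n (1 - 1/(2 q^l))^N < q^n` (`sum_col`; the
factors lie in `[0, 1]`). So some `c` is good for all `j` and `i`; take the colour `j` with the least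
number of vertices.
-/

set_option autoImplicit false

open Classical

namespace Pool.Agent.TWS

theorem exists_sample {V : Type*} [Fintype V] {ι : Type*} [Fintype ι]
    (F : ι → Finset (Finset V)) {N l q z : ℕ} (hq : 1 ≤ q)
    (hN : ∀ i, N ≤ (F i).card) (hl : ∀ i, ∀ P ∈ F i, P.card ≤ l)
    (hd : ∀ i, ∀ P ∈ F i, ∀ Q ∈ F i, P ≠ Q → Disjoint P Q)
    (hb : (Fintype.card ι : ℝ) * q * 2 ^ z * (1 - 1 / (2 * (q : ℝ) ^ l)) ^ N < 1) :
    ∃ R : Finset V, q * R.card ≤ Fintype.card V ∧
      ∀ i, z < ((F i).filter fun P => P ⊆ R).card := by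
  have hq0 : (0 : ℝ) < q := by exact_mod_cast hq
  have hq1 : (1 : ℝ) ≤ q := by exact_mod_cast hq
  -- a good colouring
  have key : ∃ c : V → Fin q, ∀ j : Fin q, ∀ i : ι,
      z < ((F i).filter fun P => ∀ v ∈ P, c v = j).card := by
    by_contra hno
    push Not at hno
    have h1 : ∀ c : V → Fin q, (1 : ℝ) ≤ ∑ j : Fin q, ∑ i : ι, (2 : ℝ) ^ z *
        ((1 : ℝ) / 2) ^ ((F i).filter fun P => ∀ v ∈ P, c v = j).card := by
      intro c
      obtain ⟨j, i, hji⟩ := hno c
      have hpos : ∀ (j : Fin q) (i : ι), (0 : ℝ) ≤ (2 : ℝ) ^ z *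
          ((1 : ℝ) / 2) ^ ((F i).filter fun P => ∀ v ∈ P, c v = j).card := by
        intro j i
        positivity
      have a1 : (1 : ℝ) ≤ (2 : ℝ) ^ z *
          ((1 : ℝ) / 2) ^ ((F i).filter fun P => ∀ v ∈ P, c v = j).card := by
        have a2 : ((1 : ℝ) / 2) ^ z ≤
            ((1 : ℝ) / 2) ^ ((F i).filter fun P => ∀ v ∈ P, c v = j).card :=
          pow_le_pow_of_le_one (by norm_num) (by norm_num) hji
        have a3 : (2 : ℝ) ^ z * ((1 : ℝ) / 2) ^ z = 1 := by
          rw [← mul_pow]; norm_num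
        calc (1 : ℝ) = (2 : ℝ) ^ z * ((1 : ℝ) / 2) ^ z := a3.symm
          _ ≤ _ := mul_le_mul_of_nonneg_left a2 (by positivity)
      calc (1 : ℝ) ≤ _ := a1
        _ ≤ ∑ i : ι, (2 : ℝ) ^ z *
            ((1 : ℝ) / 2) ^ ((F i).filter fun P => ∀ v ∈ P, c v = j).card :=
          Finset.single_le_sum (f := fun i => (2 : ℝ) ^ z *
            ((1 : ℝ) / 2) ^ ((F i).filter fun P => ∀ v ∈ P, c v = j).card)
            (fun i _ => hpos j i) (Finset.mem_univ i)
        _ ≤ _ := Finset.single_le_sum (f := fun j => ∑ i : ι, (2 : ℝ) ^ z *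
            ((1 : ℝ) / 2) ^ ((F i).filter fun P => ∀ v ∈ P, c v = j).card)
            (fun j _ => Finset.sum_nonneg (fun i _ => hpos j i)) (Finset.mem_univ j)
    have h2 : ((q : ℝ) ^ Fintype.card V) ≤ ∑ c : V → Fin q, ∑ j : Fin q, ∑ i : ι, (2 : ℝ) ^ z *
        ((1 : ℝ) / 2) ^ ((F i).filter fun P => ∀ v ∈ P, c v = j).card := by
      have : ∑ _c : V → Fin q, (1 : ℝ) = (q : ℝ) ^ Fintype.card V := by
        simp
      rw [← this]
      exact Finset.sum_le_sum (fun c _ => h1 c)
    have h3 : ∑ c : V → Fin q, ∑ j : Fin q, ∑ i : ι, (2 : ℝ) ^ z *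
        ((1 : ℝ) / 2) ^ ((F i).filter fun P => ∀ v ∈ P, c v = j).card =
        ∑ j : Fin q, ∑ i : ι, (2 : ℝ) ^ z * ((q : ℝ) ^ Fintype.card V *
          ∏ P ∈ F i, (1 - 1 / (2 * (q : ℝ) ^ P.card))) := by
      rw [Finset.sum_comm]
      apply Finset.sum_congr rfl
      intro j _
      rw [Finset.sum_comm]
      apply Finset.sum_congr rfl
      intro i _
      rw [← Finset.mul_sum, sum_col hq j (F i) (hd i)]
    have hfac0 : ∀ n : ℕ, (0 : ℝ) ≤ 1 - 1 / (2 * (q : ℝ) ^ n) := by
      intro n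
      have : (1 : ℝ) ≤ (q : ℝ) ^ n := one_le_pow₀ hq1
      have h5 : 1 / (2 * (q : ℝ) ^ n) ≤ 1 := by
        rw [div_le_one (by positivity)]
        linarith
      linarith
    have hfac1 : ∀ n : ℕ, 1 - 1 / (2 * (q : ℝ) ^ n) ≤ 1 := by
      intro n
      have : (0 : ℝ) ≤ 1 / (2 * (q : ℝ) ^ n) := by positivity
      linarith
    have h4 : ∀ i : ι, ∏ P ∈ F i, (1 - 1 / (2 * (q : ℝ) ^ P.card)) ≤
        (1 - 1 / (2 * (q : ℝ) ^ l)) ^ N := by
      intro i
      calc ∏ P ∈ F i, (1 - 1 / (2 * (q : ℝ) ^ P.card))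
          ≤ ∏ _P ∈ F i, (1 - 1 / (2 * (q : ℝ) ^ l)) := by
            apply Finset.prod_le_prod
            · intro P _
              exact hfac0 _
            · intro P hP
              have h6 : (q : ℝ) ^ P.card ≤ (q : ℝ) ^ l := pow_le_pow_right₀ hq1 (hl i P hP)
              have h7 : 1 / (2 * (q : ℝ) ^ l) ≤ 1 / (2 * (q : ℝ) ^ P.card) := by
                apply one_div_le_one_div_of_le (by positivity)
                linarith
              linarith
        _ = (1 - 1 / (2 * (q : ℝ) ^ l)) ^ (F i).card := by rw [Finset.prod_const]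
        _ ≤ (1 - 1 / (2 * (q : ℝ) ^ l)) ^ N :=
            pow_le_pow_of_le_one (hfac0 l) (hfac1 l) (hN i)
    have h5 : ∑ j : Fin q, ∑ i : ι, (2 : ℝ) ^ z * ((q : ℝ) ^ Fintype.card V *
          ∏ P ∈ F i, (1 - 1 / (2 * (q : ℝ) ^ P.card))) ≤
        (q : ℝ) ^ Fintype.card V * ((Fintype.card ι : ℝ) * q * 2 ^ z *
          (1 - 1 / (2 * (q : ℝ) ^ l)) ^ N) := by
      calc ∑ j : Fin q, ∑ i : ι, (2 : ℝ) ^ z * ((q : ℝ) ^ Fintype.card V *
          ∏ P ∈ F i, (1 - 1 / (2 * (q : ℝ) ^ P.card)))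
          ≤ ∑ _j : Fin q, ∑ _i : ι, (2 : ℝ) ^ z * ((q : ℝ) ^ Fintype.card V *
            (1 - 1 / (2 * (q : ℝ) ^ l)) ^ N) := by
            apply Finset.sum_le_sum
            intro j _
            apply Finset.sum_le_sum
            intro i _
            apply mul_le_mul_of_nonneg_left _ (by positivity)
            exact mul_le_mul_of_nonneg_left (h4 i) (by positivity)
        _ = _ := by
            rw [Finset.sum_const, Finset.sum_const, Finset.card_univ, Finset.card_univ,
              Fintype.card_fin, nsmul_eq_mul, nsmul_eq_mul]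
            ring
    have h6 : (q : ℝ) ^ Fintype.card V ≤ (q : ℝ) ^ Fintype.card V *
        ((Fintype.card ι : ℝ) * q * 2 ^ z * (1 - 1 / (2 * (q : ℝ) ^ l)) ^ N) :=
      h2.trans (h3.le.trans h5)
    have h7 : (0 : ℝ) < (q : ℝ) ^ Fintype.card V := by positivity
    have h8 : (q : ℝ) ^ Fintype.card V *
        ((Fintype.card ι : ℝ) * q * 2 ^ z * (1 - 1 / (2 * (q : ℝ) ^ l)) ^ N) <
        (q : ℝ) ^ Fintype.card V * 1 := mul_lt_mul_of_pos_left hb h7
    linarith
  obtain ⟨c, hc⟩ := key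
  have hne : (Finset.univ : Finset (Fin q)).Nonempty := ⟨⟨0, by omega⟩, Finset.mem_univ _⟩
  obtain ⟨j, _, hj⟩ := Finset.exists_min_image (Finset.univ : Finset (Fin q))
    (fun j => (Finset.univ.filter fun v => c v = j).card) hne
  refine ⟨Finset.univ.filter fun v => c v = j, ?_, ?_⟩
  · have h1 : Fintype.card V = ∑ j : Fin q, (Finset.univ.filter fun v => c v = j).card := by
      rw [← Finset.card_univ (α := V)]
      exact Finset.card_eq_sum_card_fiberwise (fun v _ => Finset.mem_univ (c v))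
    rw [h1]
    calc q * (Finset.univ.filter fun v => c v = j).card
        = ∑ _k : Fin q, (Finset.univ.filter fun v => c v = j).card := by
          rw [Finset.sum_const, Finset.card_univ, Fintype.card_fin, smul_eq_mul]
      _ ≤ _ := Finset.sum_le_sum (fun k hk => hj k hk)
  · intro i
    have h1 : ((F i).filter fun P => P ⊆ Finset.univ.filter fun v => c v = j) =
        (F i).filter fun P => ∀ v ∈ P, c v = j := by
      apply Finset.filter_congr
      intro P _
      constructor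
      · intro h v hv
        exact (Finset.mem_filter.1 (h hv)).2
      · intro h v hv
        exact Finset.mem_filter.2 ⟨Finset.mem_univ _, h v hv⟩
    rw [h1]
    exact hc j i

end Pool.Agent.TWS
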