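import Mathlib
import Pool.Agent.TWS.PCK
import Pool.Agent.TWS.LNK
import Pool.Agent.TWS.SMP
import Pool.Agent.TWS.ASM
import Pool.Agent.TWS.NUM

/-!
TWS, module COR: the theorem for expanders.

`params`; `exists_clusters`; `m K ≤ n` (disjoint sets of size `K`), `24 z ≤ m`, `1 ≤ m`. For
`S, T ⊆ Fin m` disjoint with `m ≤ 5 |S|`, `m ≤ 5 |T|` the unions have at least
`m K / 5 ≥ α n / 40` vertices: `exists_links`. `exists_sample` with `ι` := the set of these pairs (at
most `4^m`) and `l + 1`. `exists_A`; `|A| ≤ (R+2) n/q + n/K ≤ p n`.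
-/

set_option autoImplicit false

open Classical

namespace Pool.Agent.TWS

theorem cor_card_biUnion {V : Type*} {m K : ℕ} {B : Fin m → Finset V}
    (hB : ∀ i, (B i).card = K) (hdisj : ∀ i j, i ≠ j → Disjoint (B i) (B j))
    (S : Finset (Fin m)) : (S.biUnion B).card = S.card * K := by
  rw [Finset.card_biUnion (fun i _ j _ hij => hdisj i j hij), Finset.sum_congr rfl fun i _ => hB i,
    Finset.sum_const, smul_eq_mul]

theorem core {α p : ℝ} (hα : 0 < α) (hα1 : α ≤ 1) (hp : 0 < p) :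
    ∃ ε : ℝ, 0 < ε ∧ ∃ n0 : ℕ, ∀ (V : Type) [Fintype V] (G : SimpleGraph V),
      n0 ≤ Fintype.card V → Expander G α →
      ∃ (A : Finset V) (m z : ℕ) (a : Fin m → V), (A.card : ℝ) ≤ p * Fintype.card V ∧
        Function.Injective a ∧ (∀ i, a i ∈ A) ∧ 24 * z ≤ m ∧ 1 ≤ m ∧
        ε * Fintype.card V ≤ z ∧ SepP G A a z := by
  obtain ⟨K, R, l, q, n0, ε, hε, hK, hq, hl, hKR, hqp, hn⟩ := params hα hα1 hp
  refine ⟨ε, hε, n0, ?_⟩
  intro V _ G hn0 hexp
  obtain ⟨h4K, N, z, hpar, hz, hεz, hb⟩ := hn _ hn0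
  obtain ⟨m, B, r, hcl, hdisj, hmK⟩ := exists_clusters G hα hα1 hexp hK hKR h4K
  set n : ℕ := Fintype.card V with hndef
  have hnpos : 0 < n := by omega
  have hnR : (0 : ℝ) < n := by exact_mod_cast hnpos
  have hKpos : (0 : ℝ) < K := by exact_mod_cast hK
  have hqpos : (0 : ℝ) < q := by exact_mod_cast hq
  have hBc : ∀ i, (B i).card = K := fun i => (hcl i).card
  have hmn : m * K ≤ n := by
    have h1 := cor_card_biUnion hBc hdisj Finset.univ
    rw [Finset.card_univ, Fintype.card_fin] at h1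
    rw [← h1]
    exact Finset.card_le_univ _
  have h24 : 24 * z ≤ m := by
    have h1 : 24 * (z : ℝ) * (8 * K) ≤ (m : ℝ) * (8 * K) := by nlinarith
    have h2 : 24 * (z : ℝ) ≤ m := le_of_mul_le_mul_right h1 (by positivity)
    exact_mod_cast h2
  have hm1 : 1 ≤ m := by
    rcases Nat.eq_zero_or_pos m with h | h
    · exfalso
      rw [h] at hmK
      have : 0 < α / 8 * (n : ℝ) := by positivity
      simp at hmK
      linarith
    · exact h
  set ι : Type := {x : Finset (Fin m) × Finset (Fin m) //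
    Disjoint x.1 x.2 ∧ m ≤ 5 * x.1.card ∧ m ≤ 5 * x.2.card} with hι
  have hbig : ∀ S : Finset (Fin m), m ≤ 5 * S.card → α * n / 40 ≤ (S.biUnion B).card := by
    intro S hS
    rw [cor_card_biUnion hBc hdisj S]
    have h1 : (m : ℝ) ≤ 5 * S.card := by exact_mod_cast hS
    push_cast
    have h2 : (m : ℝ) * K ≤ 5 * S.card * K := mul_le_mul_of_nonneg_right h1 hKpos.le
    nlinarith
  have hlinks : ∀ x : ι, ∃ F : Finset (Finset V),
      Links G l (x.1.1.biUnion B) (x.1.2.biUnion B) F ∧ N ≤ F.card := fun x =>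
    exists_links G hα hexp hl (hbig _ x.2.2.1) (hbig _ x.2.2.2) hpar
  choose F hF hFN using hlinks
  have hcard : (Fintype.card ι : ℝ) ≤ 4 ^ m := by
    have h1 : Fintype.card ι ≤ Fintype.card (Finset (Fin m) × Finset (Fin m)) :=
      Fintype.card_subtype_le _
    have h2 : Fintype.card (Finset (Fin m) × Finset (Fin m)) = 4 ^ m := by
      rw [Fintype.card_prod, Fintype.card_finset, Fintype.card_fin, ← mul_pow]; norm_num
    rw [h2] at h1
    exact_mod_cast h1
  have hx : 0 ≤ 1 - 1 / (2 * (q : ℝ) ^ (l + 1)) := by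
    have h1 : (1 : ℝ) ≤ (q : ℝ) ^ (l + 1) := one_le_pow₀ (by exact_mod_cast hq)
    have h2 : 1 / (2 * (q : ℝ) ^ (l + 1)) ≤ 1 := by
      rw [div_le_one (by positivity)]
      linarith
    linarith
  obtain ⟨Rs, hRs, hRs2⟩ := exists_sample F (N := N) (l := l + 1) (z := z) hq hFN
    (fun x P hP => (hF x).card P hP) (fun x => (hF x).disj) (by
      refine lt_of_le_of_lt ?_ (hb m hmn)
      gcongr)
  obtain ⟨A, hA1, hA2, hA3⟩ := exists_A G (l := l) hcl hdisj h24 Rs (by
    intro S T hST hS hT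
    refine ⟨(F ⟨(S, T), hST, hS, hT⟩).filter fun P => P ⊆ Rs, hRs2 _, ?_, ?_⟩
    · intro P hP
      exact (Finset.mem_filter.1 hP).2
    · have h1 := hF ⟨(S, T), hST, hS, hT⟩
      exact ⟨fun P hP Q hQ => h1.disj P (Finset.mem_filter.1 hP).1 Q (Finset.mem_filter.1 hQ).1,
        fun P hP => h1.card P (Finset.mem_filter.1 hP).1,
        fun P hP => h1.conn P (Finset.mem_filter.1 hP).1,
        fun P hP => h1.left P (Finset.mem_filter.1 hP).1,
        fun P hP => h1.right P (Finset.mem_filter.1 hP).1⟩)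
  refine ⟨A, m, z, r, ?_, ?_, hA2, h24, hm1, hεz, hA3⟩
  · have h1 : (A.card : ℝ) ≤ Rs.card + m + (R + 1) * Rs.card := by exact_mod_cast hA1
    have h2 : (q : ℝ) * Rs.card ≤ n := by exact_mod_cast hRs
    have h3 : (Rs.card : ℝ) ≤ n / q := by
      rw [le_div_iff₀ hqpos]
      linarith
    have h4 : (m : ℝ) ≤ n / K := by
      rw [le_div_iff₀ hKpos]
      exact_mod_cast hmn
    have h5 : (Rs.card : ℝ) + m + (R + 1) * Rs.card ≤ (((R : ℝ) + 2) / q + 1 / K) * n := by
      have h6 : ((R : ℝ) + 2) * Rs.card ≤ (R + 2) * (n / q) :=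
        mul_le_mul_of_nonneg_left h3 (by positivity)
      have h7 : (((R : ℝ) + 2) / q + 1 / K) * n = (R + 2) * (n / q) + n / K := by ring
      rw [h7]
      linarith
    exact h1.trans (h5.trans (mul_le_mul_of_nonneg_right hqp hnR.le))
  · intro i j hij
    by_contra hne
    have h1 := (hcl i).mem
    have h2 := (hcl j).mem
    rw [← hij] at h2
    exact Finset.disjoint_left.1 (hdisj i j hne) h1 h2

end Pool.Agent.TWS
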