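import Mathlib
import Pool.Agent.TWS.Defs

/-!
TWS, module EXI: the graph induced by `Y` is an expander.

For a finset `S` of the subtype take its image in `V` (`Finset.map` with the subtype embedding).
-/

set_option autoImplicit false

open Classical

namespace Pool.Agent.TWS

theorem ExpOn.expander {V : Type*} [Fintype V] {G : SimpleGraph V} {Y : Finset V} {α : ℝ}
    (h : ExpOn G Y α) : Expander (G.induce (Y : Set V)) α := by
  intro S hS
  have hcard : (S.map (Function.Embedding.subtype (· ∈ (Y : Set V)))).card = S.card :=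
    Finset.card_map _
  have hsub : S.map (Function.Embedding.subtype (· ∈ (Y : Set V))) ⊆ Y := by
    intro v hv
    rw [Finset.mem_map] at hv
    obtain ⟨w, -, rfl⟩ := hv
    exact w.2
  have hY : Fintype.card ((Y : Set V) : Type _) = Y.card := by simp
  have h1 := h _ hsub (by rw [hcard]; rw [hY] at hS; exact hS)
  rw [hcard] at h1
  refine h1.trans ?_
  have h2 : (bd G (S.map (Function.Embedding.subtype (· ∈ (Y : Set V)))) ∩ Y) ⊆
      (bd (G.induce (Y : Set V)) S).map (Function.Embedding.subtype (· ∈ (Y : Set V))) := by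
    intro v hv
    rw [Finset.mem_inter, mem_bd] at hv
    obtain ⟨⟨hv1, u, hu, huv⟩, hvY⟩ := hv
    rw [Finset.mem_map] at hu
    obtain ⟨w, hw, rfl⟩ := hu
    rw [Finset.mem_map]
    refine ⟨⟨v, hvY⟩, ?_, rfl⟩
    rw [mem_bd]
    refine ⟨fun hmem => hv1 ?_, w, hw, ?_⟩
    · rw [Finset.mem_map]
      exact ⟨⟨v, hvY⟩, hmem, rfl⟩
    · simpa using huv
  have h3 := Finset.card_le_card h2
  rw [Finset.card_map] at h3
  exact_mod_cast h3

end Pool.Agent.TWS
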