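import Mathlib
import Pool.Agent.TWS.Defs

/-!
TWS, module PDJ: path decompositions of vertex sets.

`PD.self`: one bag. `PD.join`: the bags are `bag1 i ∪ Z` for `i < m1`, then `Z`, then
`bag2 (i - m1 - 1) ∪ Z`. The sets `S`, `Z`, `T` are disjoint, and there is no edge between `S` and
`T`, so every edge of the union lies in `S ∪ Z` or in `T ∪ Z`.
-/

set_option autoImplicit false

open Classical

namespace Pool.Agent.TWS

theorem PD.mono {V : Type*} {G : SimpleGraph V} {Y : Finset V} {k k' : ℕ} (h : PD G Y k)
    (hk : k ≤ k') : PD G Y k' := by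
  obtain ⟨m, bag, h1, h2, h3, h4, h5⟩ := h
  exact ⟨m, bag, h1, h2, h3, h4, fun i => (h5 i).trans hk⟩

theorem PD.self {V : Type*} (G : SimpleGraph V) (Y : Finset V) : PD G Y Y.card := by
  refine ⟨1, fun _ => Y, fun _ => Finset.Subset.refl _, ?_, ?_, ?_, fun _ => le_refl _⟩
  · intro v hv
    exact ⟨0, by norm_num, hv⟩
  · intro u hu v hv _
    exact ⟨0, by norm_num, hu, hv⟩
  · intro v i j l _ _ _ h _
    exact h

theorem PD.join {V : Type*} {G : SimpleGraph V} {S Z T : Finset V} {k : ℕ} (hS : PD G S k)
    (hT : PD G T k) (hST : Disjoint S T) (hSZ : Disjoint S Z) (hTZ : Disjoint T Z)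
    (hno : ∀ u ∈ S, ∀ v ∈ T, ¬ G.Adj u v) : PD G (S ∪ Z ∪ T) (k + Z.card) := by
  obtain ⟨m1, b1, h11, h12, h13, h14, h15⟩ := hS
  obtain ⟨m2, b2, h21, h22, h23, h24, h25⟩ := hT
  set bag : ℕ → Finset V := fun i => if i < m1 then b1 i ∪ Z else if i = m1 then Z
    else b2 (i - m1 - 1) ∪ Z with hbag
  have hb1 : ∀ i, i < m1 → bag i = b1 i ∪ Z := fun i hi => by simp [hbag, hi]
  have hb0 : bag m1 = Z := by simp [hbag]
  have hb2 : ∀ i, bag (m1 + 1 + i) = b2 i ∪ Z := fun i => by
    have e1 : ¬ (m1 + 1 + i < m1) := by omega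
    have e2 : ¬ (m1 + 1 + i = m1) := by omega
    have e3 : m1 + 1 + i - m1 - 1 = i := by omega
    simp only [hbag]
    rw [if_neg e1, if_neg e2, e3]
  have hZ : ∀ i, Z ⊆ bag i := by
    intro i
    simp only [hbag]
    split_ifs
    · exact Finset.subset_union_right
    · exact Finset.Subset.refl _
    · exact Finset.subset_union_right
  have hcase : ∀ i, i < m1 ∨ i = m1 ∨ ∃ j, i = m1 + 1 + j := by
    intro i
    rcases lt_trichotomy i m1 with h | h | h
    · exact Or.inl h
    · exact Or.inr (Or.inl h)
    · exact Or.inr (Or.inr ⟨i - m1 - 1, by omega⟩)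
  refine ⟨m1 + 1 + m2, bag, ?_, ?_, ?_, ?_, ?_⟩
  · intro i
    rcases hcase i with h | h | ⟨j, h⟩
    · rw [hb1 i h]
      exact Finset.union_subset (fun x hx => by simp [h11 i hx]) (fun x hx => by simp [hx])
    · subst h
      rw [hb0]
      intro x hx
      simp [hx]
    · subst h
      rw [hb2 j]
      exact Finset.union_subset (fun x hx => by simp [h21 j hx]) (fun x hx => by simp [hx])
  · intro v hv
    by_cases hvZ : v ∈ Z
    · exact ⟨m1, by omega, hZ m1 hvZ⟩
    · have : v ∈ S ∨ v ∈ T := by
        simp only [Finset.mem_union] at hv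
        tauto
      rcases this with h | h
      · obtain ⟨i, hi, hvi⟩ := h12 v h
        exact ⟨i, by omega, by rw [hb1 i hi]; exact Finset.mem_union_left _ hvi⟩
      · obtain ⟨i, hi, hvi⟩ := h22 v h
        exact ⟨m1 + 1 + i, by omega, by rw [hb2 i]; exact Finset.mem_union_left _ hvi⟩
  · intro u hu v hv huv
    have key : ∀ u v : V, u ∈ S ∪ Z ∪ T → v ∈ S ∪ Z ∪ T → G.Adj u v → u ∉ Z →
        ∃ i < m1 + 1 + m2, u ∈ bag i ∧ v ∈ bag i := by
      intro u v hu hv huv huZ
      have : u ∈ S ∨ u ∈ T := by
        simp only [Finset.mem_union] at hu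
        tauto
      rcases this with h | h
      · by_cases hvZ : v ∈ Z
        · obtain ⟨i, hi, hui⟩ := h12 u h
          exact ⟨i, by omega, by rw [hb1 i hi]; exact Finset.mem_union_left _ hui, hZ i hvZ⟩
        · have hvS : v ∈ S := by
            have hvT : v ∉ T := fun h' => hno u h v h' huv
            simp only [Finset.mem_union] at hv
            tauto
          obtain ⟨i, hi, hui, hvi⟩ := h13 u h v hvS huv
          exact ⟨i, by omega, by rw [hb1 i hi]; exact Finset.mem_union_left _ hui,
            by rw [hb1 i hi]; exact Finset.mem_union_left _ hvi⟩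
      · by_cases hvZ : v ∈ Z
        · obtain ⟨i, hi, hui⟩ := h22 u h
          exact ⟨m1 + 1 + i, by omega, by rw [hb2 i]; exact Finset.mem_union_left _ hui,
            hZ _ hvZ⟩
        · have hvT : v ∈ T := by
            have hvS : v ∉ S := fun h' => hno v h' u h huv.symm
            simp only [Finset.mem_union] at hv
            tauto
          obtain ⟨i, hi, hui, hvi⟩ := h23 u h v hvT huv
          exact ⟨m1 + 1 + i, by omega, by rw [hb2 i]; exact Finset.mem_union_left _ hui,
            by rw [hb2 i]; exact Finset.mem_union_left _ hvi⟩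
    by_cases huZ : u ∈ Z
    · by_cases hvZ : v ∈ Z
      · exact ⟨m1, by omega, hZ m1 huZ, hZ m1 hvZ⟩
      · obtain ⟨i, hi, h1, h2⟩ := key v u hv hu huv.symm hvZ
        exact ⟨i, hi, h2, h1⟩
    · exact key u v hu hv huv huZ
  · intro v i j l hij hjl hl hvi hvl
    by_cases hvZ : v ∈ Z
    · exact hZ j hvZ
    · rcases hcase i with h | h | ⟨i', h⟩
      · -- `v ∈ S`
        rw [hb1 i h] at hvi
        have hvi' : v ∈ b1 i := by
          rcases Finset.mem_union.1 hvi with h' | h'
          · exact h'
          · exact absurd h' hvZ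
        have hvS : v ∈ S := h11 i hvi'
        have hl' : l < m1 := by
          rcases hcase l with h' | h' | ⟨l', h'⟩
          · exact h'
          · subst h'
            rw [hb0] at hvl
            exact absurd hvl hvZ
          · subst h'
            rw [hb2 l'] at hvl
            rcases Finset.mem_union.1 hvl with h'' | h''
            · exact absurd (h21 l' h'') (Finset.disjoint_left.1 hST hvS)
            · exact absurd h'' hvZ
        rw [hb1 l hl'] at hvl
        have hvl' : v ∈ b1 l := by
          rcases Finset.mem_union.1 hvl with h' | h'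
          · exact h'
          · exact absurd h' hvZ
        rw [hb1 j (by omega)]
        exact Finset.mem_union_left _ (h14 v i j l hij hjl hl' hvi' hvl')
      · subst h
        rw [hb0] at hvi
        exact absurd hvi hvZ
      · obtain ⟨j', rfl⟩ : ∃ j', j = m1 + 1 + j' := ⟨j - m1 - 1, by omega⟩
        obtain ⟨l', rfl⟩ : ∃ l', l = m1 + 1 + l' := ⟨l - m1 - 1, by omega⟩
        subst h
        rw [hb2] at hvi hvl ⊢
        have hvi' : v ∈ b2 i' := by
          rcases Finset.mem_union.1 hvi with h' | h'
          · exact h'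
          · exact absurd h' hvZ
        have hvl' : v ∈ b2 l' := by
          rcases Finset.mem_union.1 hvl with h' | h'
          · exact h'
          · exact absurd h' hvZ
        exact Finset.mem_union_left _
          (h24 v i' j' l' (by omega) (by omega) (by omega) hvi' hvl')
  · intro i
    rcases hcase i with h | h | ⟨j, h⟩
    · rw [hb1 i h]
      exact (Finset.card_union_le _ _).trans (Nat.add_le_add_right (h15 i) _)
    · subst h
      rw [hb0]
      omega
    · subst h
      rw [hb2 j]
      exact (Finset.card_union_le _ _).trans (Nat.add_le_add_right (h25 j) _)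

end Pool.Agent.TWS
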