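import Mathlib
import Pool.Agent.TWS.PDJ
import Pool.Agent.TWS.PTD

/-!
TWS, module EXT: a graph with `n` vertices and treewidth at least `2 α n + h0` contains a set `Y` with
more than `h0` vertices which induces an `α`-expander.

Suppose not. Claim: for all `Y` and all `k` with `2 α |Y| + h0 ≤ k`, `PD G Y k`. Strong induction on
`|Y|`. If `|Y| ≤ h0`: `PD.self`. Otherwise there is `S ⊆ Y`, `2 |S| ≤ |Y|`, with
`|Z| < α |S|`, `Z = bd G S ∩ Y` (so `S` is not empty). Let `T = Y \ (S ∪ Z)`. `S`, `T` are smaller
than `Y`, there is no edge between them, `k1 = k - |Z|` satisfies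
`2 α |S| + h0 ≤ k1` (as `3 |S| ≤ 2 |Y|`) and `2 α |T| + h0 ≤ k1` (as `|T| ≤ |Y| - |S|`). `PD.join`.
-/

set_option autoImplicit false

open Classical

namespace Pool.Agent.TWS

theorem exists_expOn {V : Type*} [Fintype V] (G : SimpleGraph V) {α : ℝ} (hα : 0 < α) {h0 k : ℕ}
    (hk : 2 * α * Fintype.card V + h0 ≤ k) (hno : ¬ HasTD G k) :
    ∃ Y : Finset V, h0 < Y.card ∧ ExpOn G Y α := by
  by_contra hcon
  have hcon' : ∀ Y : Finset V, h0 < Y.card → ¬ ExpOn G Y α := fun Y h1 h2 => hcon ⟨Y, h1, h2⟩
  have key : ∀ n : ℕ, ∀ Y : Finset V, Y.card = n → ∀ k : ℕ,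
      2 * α * (Y.card : ℝ) + h0 ≤ k → PD G Y k := by
    intro n
    induction n using Nat.strong_induction_on with
    | _ n ih =>
      intro Y hY k hk
      by_cases hs : Y.card ≤ h0
      · refine (PD.self G Y).mono (hs.trans ?_)
        have h1 : (0 : ℝ) ≤ 2 * α * (Y.card : ℝ) := by positivity
        have h2 : (h0 : ℝ) ≤ (k : ℝ) := by linarith
        exact_mod_cast h2
      · rw [not_le] at hs
        have hexp := hcon' Y hs
        unfold ExpOn at hexp
        push Not at hexp
        obtain ⟨S, hSY, hS2, hSb⟩ := hexp
        set Z := bd G S ∩ Y with hZ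
        have hZY : Z ⊆ Y := Finset.inter_subset_right
        set T := Y \ (S ∪ Z) with hT
        have hSZ : Disjoint S Z := by
          rw [Finset.disjoint_left]
          intro x hx hxZ
          exact (mem_bd.1 (Finset.mem_inter.1 hxZ).1).1 hx
        have hST : Disjoint S T := by
          rw [Finset.disjoint_left]
          intro x hx hxT
          exact (Finset.mem_sdiff.1 hxT).2 (Finset.mem_union_left _ hx)
        have hTZ : Disjoint T Z := by
          rw [Finset.disjoint_left]
          intro x hxT hx
          exact (Finset.mem_sdiff.1 hxT).2 (Finset.mem_union_right _ hx)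
        have hno' : ∀ u ∈ S, ∀ v ∈ T, ¬ G.Adj u v := by
          intro u hu v hv huv
          have hv' := Finset.mem_sdiff.1 hv
          apply hv'.2
          refine Finset.mem_union_right _ (Finset.mem_inter.2 ⟨mem_bd.2 ⟨?_, u, hu, huv⟩, hv'.1⟩)
          intro h
          exact hv'.2 (Finset.mem_union_left _ h)
        have hunion : S ∪ Z ∪ T = Y := by
          rw [hT]
          exact Finset.union_sdiff_of_subset (Finset.union_subset hSY hZY)
        have hSc : 0 < S.card := by
          by_contra h0'
          have : S.card = 0 := by omega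
          rw [this] at hSb
          have h1 : (0 : ℝ) ≤ ((bd G S ∩ Y).card : ℝ) := by positivity
          simp only [Nat.cast_zero, mul_zero] at hSb
          linarith
        have hZc : (Z.card : ℝ) < α * S.card := hSb
        have hcard : S.card + Z.card + T.card = Y.card := by
          rw [← hunion, Finset.card_union_of_disjoint, Finset.card_union_of_disjoint hSZ]
          rw [Finset.disjoint_union_left]
          exact ⟨hST, hTZ.symm⟩
        have hTc : S.card + T.card ≤ Y.card := by omega
        have h2S : (2 : ℝ) * S.card ≤ Y.card := by exact_mod_cast hS2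
        have hT' : (S.card : ℝ) + T.card ≤ Y.card := by exact_mod_cast hTc
        have hS0 : (0 : ℝ) < S.card := by exact_mod_cast hSc
        have hY0 : (0 : ℝ) ≤ Y.card := by positivity
        have hh0 : (0 : ℝ) ≤ (h0 : ℝ) := by positivity
        have hZk : Z.card ≤ k := by
          have : (Z.card : ℝ) ≤ k := by nlinarith
          exact_mod_cast this
        have hk1 : ((k - Z.card : ℕ) : ℝ) = (k : ℝ) - Z.card := by
          rw [Nat.cast_sub hZk]
        have e1 : α * (3 * S.card) ≤ α * (2 * Y.card) :=
          mul_le_mul_of_nonneg_left (by linarith) hα.le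
        have e2 : α * (S.card + T.card) ≤ α * Y.card :=
          mul_le_mul_of_nonneg_left hT' hα.le
        have e3 : 0 < α * (S.card : ℝ) := mul_pos hα hS0
        have pS : PD G S (k - Z.card) := by
          refine ih S.card (by omega) S rfl (k - Z.card) ?_
          rw [hk1]
          nlinarith
        have pT : PD G T (k - Z.card) := by
          refine ih T.card (by omega) T rfl (k - Z.card) ?_
          rw [hk1]
          nlinarith
        have := PD.join pS pT hST hSZ hTZ hno'
        rw [hunion, Nat.sub_add_cancel hZk] at this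
        exact this
  apply hno
  apply PD.hasTD
  refine key _ Finset.univ rfl k ?_
  rw [Finset.card_univ]
  exact hk

end Pool.Agent.TWS
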