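import Mathlib
import Pool.Agent.BTD.T2
import Pool.Agent.TWS.Defs

/-!
TWS, module RTD: rooted form of a tree decomposition.

Copy of the section `root` and of `walk_exit'`, `exists_home` of `Pool.Agent.BTD.T8` (with
`BTD.RTree` from `Pool.Agent.BTD.T2`): root the tree at any node.
-/

set_option autoImplicit false

open Classical

namespace Pool.Agent.TWS

open Pool.Agent.BTD

section RTDroot

universe v

variable {ι : Type v} {T : SimpleGraph ι} (hT : T.IsTree) (r : ι)

/-- The path to the root. -/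
noncomputable def RTD_rp (i : ι) : T.Walk i r := (hT.existsUnique_path i r).choose

lemma RTD_rp_isPath (i : ι) : (RTD_rp hT r i).IsPath := (hT.existsUnique_path i r).choose_spec.1

lemma RTD_rp_unique {i : ι} {p : T.Walk i r} (hp : p.IsPath) : p = RTD_rp hT r i :=
  (hT.existsUnique_path i r).choose_spec.2 p hp

/-- The parent map. -/
noncomputable def RTD_rpar (i : ι) : ι := (RTD_rp hT r i).snd

lemma RTD_rpar_root : RTD_rpar hT r r = r := by
  unfold RTD_rpar
  rw [← RTD_rp_unique hT r (SimpleGraph.Walk.IsPath.nil (u := r))]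
  rfl

lemma RTD_rpar_reach (i : ι) : ∃ n : ℕ, (RTD_rpar hT r)^[n] i = r := by
  have key : ∀ n : ℕ, ∀ i : ι, (RTD_rp hT r i).length = n → (RTD_rpar hT r)^[n] i = r := by
    intro n
    induction n with
    | zero =>
      intro i hi
      exact SimpleGraph.Walk.eq_of_length_eq_zero hi
    | succ n ih =>
      intro i hi
      rw [Function.iterate_succ_apply]
      apply ih
      have h1 : (RTD_rp hT r i).tail.IsPath := (RTD_rp_isPath hT r i).tail
      have h2 : (RTD_rp hT r i).tail = RTD_rp hT r (RTD_rpar hT r i) := RTD_rp_unique hT r h1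
      rw [← h2]
      have h3 : ¬ (RTD_rp hT r i).Nil := by
        intro h
        rw [← SimpleGraph.Walk.length_eq_zero_iff] at h
        omega
      have h4 := SimpleGraph.Walk.length_tail_add_one h3
      have h5 : (RTD_rp hT r i).tail.length = n := by omega
      exact h5
  exact ⟨_, key _ i rfl⟩

/-- The rooted tree. -/
noncomputable def RTD_rtree : RTree ι where
  root := r
  par := RTD_rpar hT r
  par_root := RTD_rpar_root hT r
  reach := RTD_rpar_reach hT r

lemma RTD_rtree_adj {i j : ι} (h : T.Adj i j) : (RTD_rtree hT r).IsChild j i ∨ (RTD_rtree hT r).IsChild i j := by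
  by_cases hj : j ∈ (RTD_rp hT r i).support
  · right
    refine ⟨?_, ?_⟩
    · rintro rfl
      have h1 : RTD_rp hT i i = SimpleGraph.Walk.nil :=
        (RTD_rp_unique hT i (SimpleGraph.Walk.IsPath.nil (u := i))).symm
      change j ∈ (RTD_rp hT i i).support at hj
      rw [h1] at hj
      simp only [SimpleGraph.Walk.support_nil, List.mem_singleton] at hj
      exact h.ne hj.symm
    · exact (hT.isAcyclic.eq_snd_of_adj_start (RTD_rp_isPath hT r i) h hj).symm
  · left
    have h1 : (SimpleGraph.Walk.cons h.symm (RTD_rp hT r i)).IsPath := by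
      rw [SimpleGraph.Walk.cons_isPath_iff]
      exact ⟨RTD_rp_isPath hT r i, hj⟩
    refine ⟨?_, ?_⟩
    · rintro rfl
      exact hj (SimpleGraph.Walk.end_mem_support _)
    · have h2 := RTD_rp_unique hT r h1
      show RTD_rpar hT r j = i
      unfold RTD_rpar
      rw [← h2]
      simp

lemma RTD_rtree_adj_iff {i j : ι} :
    T.Adj i j ↔ (RTD_rtree hT r).IsChild j i ∨ (RTD_rtree hT r).IsChild i j := by
  refine ⟨RTD_rtree_adj hT r, ?_⟩
  have key : ∀ i j, (RTD_rtree hT r).IsChild j i → T.Adj j i := by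
    rintro i j ⟨h1, h2⟩
    have h3 : ¬ (RTD_rp hT r j).Nil := by
      intro h
      exact h1 h.eq
    have h4 := SimpleGraph.Walk.adj_snd h3
    have h5 : (RTD_rp hT r j).snd = i := h2
    rw [h5] at h4
    exact h4
  rintro (h | h)
  · exact (key i j h).symm
  · exact key j i h


end RTDroot

/-- A walk leaves a set. -/
lemma RTD_walk_exit {α : Type*} {H : SimpleGraph α} {S : Set α} {x : α} (hx : x ∉ S) :
    ∀ {a : α} (_ : H.Walk a x), a ∈ S → ∃ u w, H.Adj u w ∧ u ∈ S ∧ w ∉ S
  | _, .nil, ha => absurd ha hx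
  | a, .cons (v := b) hab q, ha => by
    by_cases hb : b ∈ S
    · exact RTD_walk_exit hx q hb
    · exact ⟨a, b, hab, ha, hb⟩


theorem exists_rooted {V : Type*} {G : SimpleGraph V} {k : ℕ} (h : HasTD G k) :
    ∃ (m : ℕ) (R : BTD.RTree (Fin m)) (bag : Fin m → Set V) (home : V → Fin m),
      (∀ v, v ∈ bag (home v)) ∧
      (∀ v i, v ∈ bag i → i ≠ home v → i ≠ R.root ∧ v ∈ bag (R.par i)) ∧
      (∀ u v, G.Adj u v → ∃ i, u ∈ bag i ∧ v ∈ bag i) ∧ ∀ i, (bag i).ncard ≤ k := by
  obtain ⟨m, T, bag, hT, hcov, hedge, hconn, hcard⟩ := h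
  have hne : Nonempty (Fin m) := hT.1.nonempty
  obtain ⟨r⟩ := hne
  set R := RTD_rtree hT r with hR
  have key : ∀ v : V, ∃ h, v ∈ bag h ∧ ∀ i, v ∈ bag i → i ≠ h → i ≠ R.root ∧
      v ∈ bag (R.par i) := by
    intro v
    have hne : {d | ∃ i, v ∈ bag i ∧ R.depth i = d}.Nonempty := by
      obtain ⟨i, hi⟩ := hcov v
      exact ⟨_, i, hi, rfl⟩
    obtain ⟨h, hh, hd⟩ := Nat.sInf_mem hne
    refine ⟨h, hh, ?_⟩
    intro i hi hih
    have hdi : R.depth h ≤ R.depth i := by
      rw [hd]; exact Nat.sInf_le ⟨i, hi, rfl⟩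
    have hnot : h ∉ R.sub i := by
      intro h1
      have := R.depth_lt_of_mem h1 hih.symm
      omega
    refine ⟨?_, ?_⟩
    · rintro rfl
      exact hnot (R.mem_sub_root _)
    obtain ⟨p⟩ := (hconn v).preconnected ⟨i, hi⟩ ⟨h, hh⟩
    obtain ⟨⟨a, ha⟩, ⟨b, hb⟩, h1, h2, h3⟩ := RTD_walk_exit (H := T.induce {i | v ∈ bag i})
      (S := {z | z.1 ∈ R.sub i}) (x := ⟨h, hh⟩) hnot p (R.mem_sub_self i)
    have h2' : a ∈ R.sub i := h2
    have h3' : b ∉ R.sub i := h3
    have h4 : T.Adj a b := h1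
    rcases (RTD_rtree_adj_iff hT r).mp h4 with h5 | h5
    · exact absurd (R.sub_trans h2' h5.mem_sub) h3'
    · have h6 : a = i := by
        by_contra hne
        have h7 := (R.par_mem_sub h2' hne).1
        rw [h5.2] at h7
        exact h3' h7
      subst h6
      rw [h5.2]
      exact hb
  exact ⟨m, R, bag, fun v => (key v).choose, fun v => (key v).choose_spec.1,
    fun v => (key v).choose_spec.2, hedge, hcard⟩

end Pool.Agent.TWS
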