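import Mathlib
import Pool.Agent.TWS.RTD

/-!
TWS, module SEP: a bag which separates the terminals.

`exists_rooted`, `m` := the number of terminals. `w i` := the number of terminals `a` with
`home a ∈ R.sub i`. Take a node `i` of maximal depth with `m ≤ 3 w i` (the root is one). The children
`c` of `i` have `3 w c < m`. `X` := the bag of `i`. For a set `J` of children let `S` := the vertices
with home in `R.sub c` for some `c ∈ J`; all nodes of such a vertex lie in `R.sub c`, so it is not in
`X`. `T` := the rest. No edge between `S` and `T`: the common node `t` of the edge lies in `R.sub c`;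
if the home of the other end `v` is not in `R.sub c`, then going up from `t` to it we pass `c` and
`i`, so `v ∈ X`. If all children have together `3 ∑ w c < m`, `J` := all children: the terminals
with home below or at `i`, but not below a child, have home `i` and lie in `X` (at most `z`), so
`S` has at least `w i - z` terminals; `T` has at least `m - ∑ w c - z`. Otherwise let `J` be a
minimal set of children with `m ≤ 3 ∑_{c ∈ J} w c`: then `3 ∑_{c ∈ J} w c < 2 m`, `S` has
`∑_{c ∈ J} w c` terminals and `T` at least `m - ∑_{c ∈ J} w c - z`.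
-/

set_option autoImplicit false

open Classical

namespace Pool.Agent.TWS

open Pool.Agent.BTD

theorem sep_up {V : Type*} {μ : ℕ} {R : RTree (Fin μ)} {bag : Fin μ → Set V}
    {home : V → Fin μ} (hup : ∀ v i, v ∈ bag i → i ≠ home v → i ≠ R.root ∧ v ∈ bag (R.par i))
    {v : V} : ∀ (n : ℕ) (i : Fin μ), R.depth i = n → v ∈ bag i → i ∈ R.sub (home v) := by
  intro n
  induction n using Nat.strong_induction_on with
  | _ n ih =>
    intro i hi hv
    by_cases h : i = home v
    · rw [h]; exact R.mem_sub_self _
    · obtain ⟨h1, h2⟩ := hup v i hv h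
      exact R.mem_sub_of_par (ih _ (hi ▸ R.depth_par h1) _ rfl h2)

theorem sep_pass {V : Type*} {μ : ℕ} {R : RTree (Fin μ)} {bag : Fin μ → Set V}
    {home : V → Fin μ} (hup : ∀ v i, v ∈ bag i → i ≠ home v → i ≠ R.root ∧ v ∈ bag (R.par i))
    {v : V} {c i : Fin μ} (hc : R.IsChild c i) (hv : home v ∉ R.sub c) :
    ∀ (n : ℕ) (t : Fin μ), R.depth t = n → v ∈ bag t → t ∈ R.sub c → v ∈ bag i := by
  intro n
  induction n using Nat.strong_induction_on with
  | _ n ih =>
    intro t ht hvt htc
    have h : t ≠ home v := by
      rintro rfl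
      exact hv htc
    obtain ⟨h1, h2⟩ := hup v t hvt h
    by_cases htc' : t = c
    · rw [htc', hc.2] at h2
      exact h2
    · exact ih _ (ht ▸ R.depth_par h1) _ rfl h2 (R.par_mem_sub htc htc').1

theorem exists_sep {V : Type*} [Fintype V] {G : SimpleGraph V} {z : ℕ} (h : HasTD G z)
    {ι : Type*} [Fintype ι] [Nonempty ι] {a : ι → V} (ha : Function.Injective a) :
    ∃ X S T : Finset V, X.card ≤ z ∧ X ∪ S ∪ T = Finset.univ ∧ Disjoint S T ∧ Disjoint S X ∧
      Disjoint T X ∧ (∀ u ∈ S, ∀ v ∈ T, ¬ G.Adj u v) ∧
      Fintype.card ι ≤ 3 * ((Finset.univ.filter fun i => a i ∈ S).card + z) ∧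
      Fintype.card ι ≤ 3 * ((Finset.univ.filter fun i => a i ∈ T).card + z) := by
  obtain ⟨μ, R, bag, home, hhome, hup, hedge, hbag⟩ := exists_rooted h
  have hm : 1 ≤ Fintype.card ι := Fintype.card_pos
  set w : Fin μ → ℕ := fun i => (Finset.univ.filter fun x : ι => home (a x) ∈ R.sub i).card
    with hw
  have hroot : R.root ∈ Finset.univ.filter fun i => Fintype.card ι ≤ 3 * w i := by
    have h1 : w R.root = Fintype.card ι := by
      rw [hw]
      simp only
      rw [Finset.filter_true_of_mem (fun x _ => R.mem_sub_root _), Finset.card_univ]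
    simp only [Finset.mem_filter, Finset.mem_univ, true_and, h1]
    omega
  obtain ⟨i, hi, himax⟩ := Finset.exists_max_image _ R.depth ⟨_, hroot⟩
  simp only [Finset.mem_filter, Finset.mem_univ, true_and] at hi himax
  have hchild : ∀ c, R.IsChild c i → 3 * w c < Fintype.card ι := by
    intro c hc
    by_contra hcon
    have h1 := himax c (by omega)
    have h2 := R.depth_par hc.1
    rw [hc.2] at h2
    omega
  set ch : Finset (Fin μ) := Finset.univ.filter fun c => R.IsChild c i with hch
  -- the number of terminals below a set of children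
  have hcount : ∀ J ⊆ ch, (Finset.univ.filter fun x : ι => ∃ c ∈ J, home (a x) ∈ R.sub c).card =
      ∑ c ∈ J, w c := by
    intro J hJ
    have h1 : (Finset.univ.filter fun x : ι => ∃ c ∈ J, home (a x) ∈ R.sub c) =
        J.biUnion fun c => Finset.univ.filter fun x : ι => home (a x) ∈ R.sub c := by
      ext x
      simp
    rw [h1, Finset.card_biUnion]
    intro c hc c' hc' hne
    rw [Function.onFun, Finset.disjoint_left]
    intro x hx hx'
    simp only [Finset.mem_filter, Finset.mem_univ, true_and] at hx hx'
    have h2 := hJ hc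
    have h3 := hJ hc'
    simp only [hch, Finset.mem_filter, Finset.mem_univ, true_and] at h2 h3
    exact hne (R.toward_unique h2 h3 hx hx')
  have hX : (bag i).toFinset.card ≤ z := by
    rw [← Set.ncard_eq_toFinset_card']
    exact hbag i
  have hXt : (Finset.univ.filter fun x : ι => a x ∈ (bag i).toFinset).card ≤ z := by
    refine le_trans ?_ hX
    refine Finset.card_le_card_of_injOn a ?_ ha.injOn
    intro x hx
    simpa using hx
  -- the choice of the set of children
  obtain ⟨J, hJ, hJ1, hJ2⟩ : ∃ J ⊆ ch,
      Fintype.card ι ≤ 3 * (∑ c ∈ J, w c + z) ∧ 3 * ∑ c ∈ J, w c < 2 * Fintype.card ι := by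
    by_cases hall : 3 * ∑ c ∈ ch, w c < Fintype.card ι
    · refine ⟨ch, subset_rfl, ?_, by omega⟩
      have h1 : w i ≤ ∑ c ∈ ch, w c + z := by
        rw [← hcount ch subset_rfl]
        refine le_trans ?_ (Nat.add_le_add_left hXt _)
        refine le_trans ?_ (Finset.card_union_le _ _)
        refine Finset.card_le_card ?_
        intro x hx
        simp only [Finset.mem_filter, Finset.mem_univ, true_and] at hx
        rw [Finset.mem_union, Finset.mem_filter, Finset.mem_filter]
        by_cases hxi : home (a x) = i
        · right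
          refine ⟨Finset.mem_univ _, ?_⟩
          rw [Set.mem_toFinset, ← hxi]
          exact hhome _
        · left
          obtain ⟨c, hc, hxc⟩ := R.exists_toward hx hxi
          exact ⟨Finset.mem_univ _, c, by simp [hch, hc], hxc⟩
      omega
    · push Not at hall
      have hne : ((ch.powerset).filter fun J => Fintype.card ι ≤ 3 * ∑ c ∈ J, w c).Nonempty :=
        ⟨ch, by simp [hall]⟩
      obtain ⟨J, hJ, hJmin⟩ := Finset.exists_min_image _ Finset.card hne
      simp only [Finset.mem_filter, Finset.mem_powerset] at hJ hJmin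
      refine ⟨J, hJ.1, by omega, ?_⟩
      have hJne : J.Nonempty := by
        by_contra hcon
        rw [Finset.not_nonempty_iff_eq_empty] at hcon
        have := hJ.2
        rw [hcon] at this
        simp at this
      obtain ⟨c, hc⟩ := hJne
      have h1 : ¬ Fintype.card ι ≤ 3 * ∑ c' ∈ J.erase c, w c' := by
        intro hcon
        have h2 := hJmin (J.erase c) ⟨(Finset.erase_subset _ _).trans hJ.1, hcon⟩
        have h3 := Finset.card_erase_lt_of_mem hc
        omega
      have h2 : ∑ c' ∈ J, w c' = w c + ∑ c' ∈ J.erase c, w c' := (Finset.add_sum_erase _ _ hc).symm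
      have h3 := hJ.1 hc
      simp only [hch, Finset.mem_filter, Finset.mem_univ, true_and] at h3
      have h4 := hchild c h3
      omega
  set X : Finset V := (bag i).toFinset with hXdef
  set S : Finset V := Finset.univ.filter fun v => ∃ c ∈ J, home v ∈ R.sub c with hS
  set T : Finset V := Finset.univ.filter fun v => v ∉ X ∧ v ∉ S with hT
  have hJc : ∀ c ∈ J, R.IsChild c i := by
    intro c hc
    have h3 := hJ hc
    simpa only [hch, Finset.mem_filter, Finset.mem_univ, true_and] using h3
  have hSX : Disjoint S X := by
    rw [Finset.disjoint_left]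
    intro v hv hvX
    simp only [hS, Finset.mem_filter, Finset.mem_univ, true_and] at hv
    obtain ⟨c, hc, hvc⟩ := hv
    rw [hXdef, Set.mem_toFinset] at hvX
    exact (hJc c hc).not_mem (R.sub_trans hvc (sep_up hup _ _ rfl hvX))
  have hcS : (Finset.univ.filter fun x : ι => a x ∈ S).card = ∑ c ∈ J, w c := by
    rw [← hcount J hJ]
    congr 1
    ext x
    simp [hS]
  refine ⟨X, S, T, hX, ?_, ?_, hSX, ?_, ?_, ?_, ?_⟩
  · ext v
    simp only [hT, Finset.mem_union, Finset.mem_filter, Finset.mem_univ, true_and]
    tauto
  · rw [Finset.disjoint_left]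
    intro v hv hvT
    simp only [hT, Finset.mem_filter, Finset.mem_univ, true_and] at hvT
    exact hvT.2 hv
  · rw [Finset.disjoint_left]
    intro v hvT hv
    simp only [hT, Finset.mem_filter, Finset.mem_univ, true_and] at hvT
    exact hvT.1 hv
  · intro u hu v hv huv
    simp only [hT, Finset.mem_filter, Finset.mem_univ, true_and] at hv
    simp only [hS, Finset.mem_filter, Finset.mem_univ, true_and] at hu
    obtain ⟨c, hc, huc⟩ := hu
    obtain ⟨t, hut, hvt⟩ := hedge u v huv
    have h1 : t ∈ R.sub c := R.sub_trans huc (sep_up hup _ _ rfl hut)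
    by_cases hvc : home v ∈ R.sub c
    · exact hv.2 (by simp only [hS, Finset.mem_filter, Finset.mem_univ, true_and]; exact ⟨c, hc, hvc⟩)
    · refine hv.1 ?_
      rw [hXdef, Set.mem_toFinset]
      exact sep_pass hup (hJc c hc) hvc _ _ rfl hvt h1
  · rw [hcS]
    exact hJ1
  · have h1 : Fintype.card ι ≤ (Finset.univ.filter fun x : ι => a x ∈ S).card +
        (Finset.univ.filter fun x : ι => a x ∈ X).card +
        (Finset.univ.filter fun x : ι => a x ∈ T).card := by
      rw [← Finset.card_univ]
      refine le_trans (Finset.card_le_card ?_) ((Finset.card_union_le _ _).trans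
        (Nat.add_le_add_right (Finset.card_union_le _ _) _))
      intro x _
      simp only [hT, Finset.mem_union, Finset.mem_filter, Finset.mem_univ, true_and]
      tauto
    rw [hcS] at h1
    omega

end Pool.Agent.TWS
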