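import Mathlib
import Pool.Agent.TWS.SEP

/-!
TWS, module FAT: thick models.

Let `D := part row col A`. Suppose `HasTD (G.induce D) s`. Choose `b (i, k) ∈ row (a i) k`: distinct
vertices of `D` (`m t` of them). `exists_sep`: `X, S, T`. `x ∈ A` is killed if
`t ≤ 2 |X ∩ φ x|` (`φ x` := the union of the rows and columns of `x`); `Z` := the killed ones,
`t |Z| ≤ 2 s < (z+1) t`, so `|Z| ≤ z`. If `x` is not killed: there are intact rows and intact
columns (disjoint from `X`); their union is connected and lies in `S` or in `T`; this defines `S'`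
and `T'`. There is no edge `x y` of `M` between `S'` and `T'`: of the `t` matched pairs less than
`t/2 + t/2` have a set which meets `X`. The terminals in `S` belong to `x ∈ S'` (at most `t` each), or
to killed `x` (at most `t |Z| ≤ 2 s` in all), or to a row which meets `X` (at most `s`); so
`t |{i | a i ∈ S'}| ≥ m t/3 - s - 3 s`, so `m < 4 |{i | a i ∈ S'}|` as `48 s < m t`.
The same for `T'`. Contradiction to `SepP`.
-/

set_option autoImplicit false

open Classical

namespace Pool.Agent.TWS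

/-- Disjoint sets which meet `X`, inside of a set. -/
lemma FAT_count {V κ : Type*} [Fintype κ] (X : Finset V) (p : κ → Set V)
    (Q : V → Prop) [DecidablePred Q] [DecidablePred fun k => ∃ v ∈ X, v ∈ p k]
    (hd : ∀ k l, k ≠ l → Disjoint (p k) (p l)) (hQ : ∀ k, ∀ v ∈ p k, Q v) :
    (Finset.univ.filter fun k => ∃ v ∈ X, v ∈ p k).card ≤ (X.filter Q).card := by
  have h1 : (Finset.univ.filter fun k => ∃ v ∈ X, v ∈ p k).card ≤
      ∑ k ∈ Finset.univ.filter (fun k => ∃ v ∈ X, v ∈ p k), (X.filter fun v => v ∈ p k).card := by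
    rw [Finset.card_eq_sum_ones]
    apply Finset.sum_le_sum
    intro k hk
    rw [Finset.mem_filter] at hk
    obtain ⟨-, v, hv, hvp⟩ := hk
    exact Finset.card_pos.2 ⟨v, Finset.mem_filter.2 ⟨hv, hvp⟩⟩
  refine h1.trans ?_
  rw [← Finset.card_biUnion]
  · apply Finset.card_le_card
    intro v hv
    rw [Finset.mem_biUnion] at hv
    obtain ⟨k, -, hv⟩ := hv
    rw [Finset.mem_filter] at hv ⊢
    exact ⟨hv.1, hQ k v hv.2⟩
  · intro k _ l _ hkl
    show Disjoint (X.filter fun v => v ∈ p k) (X.filter fun v => v ∈ p l)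
    rw [Finset.disjoint_left]
    intro v hv hv'
    rw [Finset.mem_filter] at hv hv'
    exact Set.disjoint_left.1 (hd k l hkl) hv.2 hv'.2

/-- A connected set which avoids the separator lies on one side. -/
lemma FAT_side {V : Type*} {G : SimpleGraph V} {X S T : Finset V} {P : Set V}
    (hP : (G.induce P).Connected) (hPX : ¬ ∃ v ∈ X, v ∈ P)
    (hcov : ∀ v ∈ P, v ∈ X ∨ v ∈ S ∨ v ∈ T)
    (hno : ∀ u ∈ S, ∀ v ∈ T, ¬ G.Adj u v) {x : V} (hx : x ∈ P) (hxS : x ∈ S) :
    ∀ y ∈ P, y ∈ S := by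
  intro y hy
  obtain ⟨p⟩ := hP.preconnected ⟨x, hx⟩ ⟨y, hy⟩
  suffices H : ∀ {a b : (P : Type _)} (_ : (G.induce P).Walk a b), (a : V) ∈ S →
      (b : V) ∈ S from H p hxS
  intro a b p
  induction p with
  | nil => exact id
  | @cons a b c hab _ ih =>
    intro ha
    apply ih
    have hadj : G.Adj a b := hab
    rcases hcov b b.2 with h | h | h
    · exact absurd ⟨_, h, b.2⟩ hPX
    · exact h
    · exact absurd hadj (hno _ ha _ h)

/-- The core of the argument, inside of `V`. -/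
lemma FAT_core {V W : Type*} {M : SimpleGraph W} {G : SimpleGraph V}
    {t : ℕ} (ht : 1 ≤ t) {row col : W → Fin t → Set V} (h : Thick M G t row col) {A : Finset W}
    {m z s : ℕ} {a : Fin m → W} (ha : Function.Injective a) (haA : ∀ i, a i ∈ A)
    (hS : SepP M A a z) (hs1 : 2 * s < (z + 1) * t) (hs2 : 48 * s < m * t)
    {X S T : Finset V} (hX : X.card ≤ s)
    (hcov : ∀ x ∈ A, ∀ k, ∀ v, v ∈ row x k ∪ col x k → v ∈ X ∨ v ∈ S ∨ v ∈ T)
    (hST : ∀ v, v ∈ S → v ∉ T)
    (hno : ∀ u ∈ S, ∀ v ∈ T, ¬ G.Adj u v) (b : Fin m × Fin t → V)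
    (hb : ∀ q, b q ∈ row (a q.1) q.2)
    (hcS : m * t ≤ 3 * ((Finset.univ.filter fun q => b q ∈ S).card + s))
    (hcT : m * t ≤ 3 * ((Finset.univ.filter fun q => b q ∈ T).card + s)) : False := by
  obtain ⟨φ, hφ⟩ : ∃ φ : W → V → Prop, ∀ x v, φ x v ↔ ∃ k, v ∈ row x k ∪ col x k :=
    ⟨_, fun _ _ => Iff.rfl⟩
  obtain ⟨n, hn⟩ : ∃ n : W → ℕ, ∀ x, n x = (X.filter (φ x)).card := ⟨_, fun _ => rfl⟩
  obtain ⟨K, hK⟩ : ∃ K : Finset W, ∀ x, x ∈ K ↔ x ∈ A ∧ t ≤ 2 * n x :=
    ⟨A.filter fun x => t ≤ 2 * n x, fun x => Finset.mem_filter⟩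
  -- sum of the `n x`
  have hsum : ∑ x ∈ A, n x ≤ s := by
    refine le_trans ?_ hX
    rw [Finset.sum_congr rfl fun x _ => hn x, ← Finset.card_biUnion]
    · apply Finset.card_le_card
      intro v hv
      rw [Finset.mem_biUnion] at hv
      obtain ⟨k, -, hv⟩ := hv
      exact (Finset.mem_filter.1 hv).1
    · intro x _ y _ hxy
      show Disjoint (X.filter (φ x)) (X.filter (φ y))
      rw [Finset.disjoint_left]
      intro v hv hv'
      rw [Finset.mem_filter, hφ] at hv hv'
      obtain ⟨-, k, hk⟩ := hv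
      obtain ⟨-, l, hl⟩ := hv'
      exact Set.disjoint_left.1 (h.disj x y hxy k l) hk hl
  have hKs : t * K.card ≤ 2 * s := by
    have h1 : ∑ x ∈ K, t ≤ ∑ x ∈ K, 2 * n x :=
      Finset.sum_le_sum fun x hx => ((hK x).1 hx).2
    have h2 : ∑ x ∈ K, 2 * n x ≤ ∑ x ∈ A, 2 * n x :=
      Finset.sum_le_sum_of_subset fun x hx => ((hK x).1 hx).1
    rw [Finset.sum_const, smul_eq_mul] at h1
    rw [← Finset.mul_sum (s := A)] at h2
    have h3 := h1.trans h2
    rw [mul_comm]
    omega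
  have hKz : K.card ≤ z := by
    by_contra hcon
    have h1 : z + 1 ≤ K.card := by omega
    have h2 : (z + 1) * t ≤ K.card * t := Nat.mul_le_mul_right t h1
    nlinarith
  -- counting rows and columns which meet `X`
  have hrow : ∀ x, (Finset.univ.filter fun k => ∃ v ∈ X, v ∈ row x k).card ≤ n x := fun x =>
    (FAT_count X (row x) (φ x) (h.disj_row x)
      fun k v hv => (hφ x v).2 ⟨k, Or.inl hv⟩).trans_eq (hn x).symm
  have hcol : ∀ x, (Finset.univ.filter fun k => ∃ v ∈ X, v ∈ col x k).card ≤ n x := fun x =>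
    (FAT_count X (col x) (φ x) (h.disj_col x)
      fun k v hv => (hφ x v).2 ⟨k, Or.inr hv⟩).trans_eq (hn x).symm
  have hex : ∀ x ∈ A, x ∉ K → ∀ p : Fin t → Set V,
      (Finset.univ.filter fun k => ∃ v ∈ X, v ∈ p k).card ≤ n x → ∃ k, ¬ ∃ v ∈ X, v ∈ p k := by
    intro x hx hxK p hp
    by_contra hcon
    push Not at hcon
    have h1 : (Finset.univ.filter fun k => ∃ v ∈ X, v ∈ p k) = Finset.univ := by
      rw [Finset.filter_eq_self]
      intro k _
      exact hcon k
    rw [h1, Finset.card_univ, Fintype.card_fin] at hp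
    exact hxK ((hK x).2 ⟨hx, by omega⟩)
  -- all intact rows and columns lie on the same side
  have hfil : ∀ U : Finset V, ∃ U' : Finset W, ∀ x, x ∈ U' ↔ (x ∈ A ∧ x ∉ K) ∧
      ∀ k, (¬ ∃ v ∈ X, v ∈ row x k) → ∀ v ∈ row x k, v ∈ U := fun U =>
    ⟨A.filter fun x => x ∉ K ∧ ∀ k, (¬ ∃ v ∈ X, v ∈ row x k) → ∀ v ∈ row x k, v ∈ U, fun x => by
      rw [Finset.mem_filter, and_assoc]⟩
  obtain ⟨S', hS'⟩ := hfil S
  obtain ⟨T', hT'⟩ := hfil T
  have hside : ∀ x ∈ A, ∀ P : Set V, (G.induce P).Connected → (¬ ∃ v ∈ X, v ∈ P) →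
      (∀ v ∈ P, φ x v) → ∀ u ∈ P, (u ∈ S → ∀ v ∈ P, v ∈ S) ∧ (u ∈ T → ∀ v ∈ P, v ∈ T) := by
    intro x hx P hP hPX hPφ u hu
    have hc : ∀ v ∈ P, v ∈ X ∨ v ∈ S ∨ v ∈ T := by
      intro v hv
      obtain ⟨k, hk⟩ := (hφ x v).1 (hPφ v hv)
      exact hcov x hx k v hk
    refine ⟨fun huS => FAT_side hP hPX hc hno hu huS, fun huT => ?_⟩
    refine FAT_side hP hPX (S := T) (T := S) ?_ ?_ hu huT
    · intro v hv
      rcases hc v hv with h1 | h1 | h1
      · exact Or.inl h1
      · exact Or.inr (Or.inr h1)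
      · exact Or.inr (Or.inl h1)
    · intro u hu v hv huv
      exact hno v hv u hu huv.symm
  have hne_row : ∀ x k, (row x k).Nonempty := by
    intro x k
    obtain ⟨v⟩ := (h.conn_row x k).nonempty
    exact ⟨v.1, v.2⟩
  -- an intact row in `S` forces every intact row and column of `x` into `S`
  have hS1 : ∀ x ∈ A, x ∉ K → ∀ k, (¬ ∃ v ∈ X, v ∈ row x k) → ∀ u ∈ row x k,
      (u ∈ S → (∀ l, (¬ ∃ v ∈ X, v ∈ row x l) → ∀ v ∈ row x l, v ∈ S) ∧
        (∀ l, (¬ ∃ v ∈ X, v ∈ col x l) → ∀ v ∈ col x l, v ∈ S)) ∧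
      (u ∈ T → (∀ l, (¬ ∃ v ∈ X, v ∈ row x l) → ∀ v ∈ row x l, v ∈ T) ∧
        (∀ l, (¬ ∃ v ∈ X, v ∈ col x l) → ∀ v ∈ col x l, v ∈ T)) := by
    intro x hx hxK k hk u hu
    obtain ⟨l0, hl0⟩ := hex x hx hxK (col x) (hcol x)
    have hr : ∀ l, ∀ v ∈ row x l, φ x v := fun l v hv => (hφ x v).2 ⟨l, Or.inl hv⟩
    have hc : ∀ l, ∀ v ∈ col x l, φ x v := fun l v hv => (hφ x v).2 ⟨l, Or.inr hv⟩
    constructor
    · intro huS
      have h1 : ∀ v ∈ row x k, v ∈ S := (hside x hx _ (h.conn_row x k) hk (hr k) u hu).1 huS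
      have h2 : ∀ l, (¬ ∃ v ∈ X, v ∈ col x l) → ∀ v ∈ col x l, v ∈ S := by
        intro l hl
        obtain ⟨w, hw1, hw2⟩ := h.meet x k l
        exact (hside x hx _ (h.conn_col x l) hl (hc l) w hw2).1 (h1 w hw1)
      refine ⟨fun l hl => ?_, h2⟩
      obtain ⟨w, hw1, hw2⟩ := h.meet x l l0
      exact (hside x hx _ (h.conn_row x l) hl (hr l) w hw1).1 (h2 l0 hl0 w hw2)
    · intro huS
      have h1 : ∀ v ∈ row x k, v ∈ T := (hside x hx _ (h.conn_row x k) hk (hr k) u hu).2 huS
      have h2 : ∀ l, (¬ ∃ v ∈ X, v ∈ col x l) → ∀ v ∈ col x l, v ∈ T := by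
        intro l hl
        obtain ⟨w, hw1, hw2⟩ := h.meet x k l
        exact (hside x hx _ (h.conn_col x l) hl (hc l) w hw2).2 (h1 w hw1)
      refine ⟨fun l hl => ?_, h2⟩
      obtain ⟨w, hw1, hw2⟩ := h.meet x l l0
      exact (hside x hx _ (h.conn_row x l) hl (hr l) w hw1).2 (h2 l0 hl0 w hw2)
  -- membership facts
  have hmemS : ∀ x ∈ A, x ∉ K → ∀ k, (¬ ∃ v ∈ X, v ∈ row x k) → ∀ u ∈ row x k, u ∈ S →
      x ∈ S' := by
    intro x hx hxK k hk u hu huS
    rw [hS']
    exact ⟨⟨hx, hxK⟩, ((hS1 x hx hxK k hk u hu).1 huS).1⟩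
  have hmemT : ∀ x ∈ A, x ∉ K → ∀ k, (¬ ∃ v ∈ X, v ∈ row x k) → ∀ u ∈ row x k, u ∈ T →
      x ∈ T' := by
    intro x hx hxK k hk u hu huT
    rw [hT']
    exact ⟨⟨hx, hxK⟩, ((hS1 x hx hxK k hk u hu).2 huT).1⟩
  have hdis : Disjoint S' T' := by
    rw [Finset.disjoint_left]
    intro x hx hx'
    rw [hS'] at hx
    rw [hT'] at hx'
    obtain ⟨k, hk⟩ := hex x hx.1.1 hx.1.2 (row x) (hrow x)
    obtain ⟨v, hv⟩ := hne_row x k
    exact hST v (hx.2 k hk v hv) (hx'.2 k hk v hv)
  have hSK : Disjoint S' K := by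
    rw [Finset.disjoint_left]
    intro x hx hx'
    rw [hS'] at hx
    exact hx.1.2 hx'
  have hTK : Disjoint T' K := by
    rw [Finset.disjoint_left]
    intro x hx hx'
    rw [hT'] at hx
    exact hx.1.2 hx'
  have hunion : K ∪ S' ∪ T' = A := by
    ext x
    constructor
    · intro hx
      rw [Finset.mem_union, Finset.mem_union] at hx
      rcases hx with (hx | hx) | hx
      · exact ((hK x).1 hx).1
      · exact ((hS' x).1 hx).1.1
      · exact ((hT' x).1 hx).1.1
    · intro hx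
      rw [Finset.mem_union, Finset.mem_union]
      by_cases hxK : x ∈ K
      · exact Or.inl (Or.inl hxK)
      · obtain ⟨k, hk⟩ := hex x hx hxK (row x) (hrow x)
        obtain ⟨v, hv⟩ := hne_row x k
        rcases hcov x hx k v (Or.inl hv) with h1 | h1 | h1
        · exact absurd ⟨v, h1, hv⟩ hk
        · exact Or.inl (Or.inr (hmemS x hx hxK k hk v hv h1))
        · exact Or.inr (hmemT x hx hxK k hk v hv h1)
  -- no edges
  have hnoM : ∀ x ∈ S', ∀ y ∈ T', ¬ M.Adj x y := by
    intro x hx y hy hxy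
    have hx0 := hx
    have hy0 := hy
    rw [hS'] at hx
    rw [hT'] at hy
    obtain ⟨⟨hxA, hxK⟩, hxS⟩ := hx
    obtain ⟨⟨hyA, hyK⟩, hyT⟩ := hy
    obtain ⟨p, q, hp, hq, σ, hσ⟩ := h.adj x y hxy
    obtain ⟨kx, hkx⟩ := hex x hxA hxK (row x) (hrow x)
    obtain ⟨vx, hvx⟩ := hne_row x kx
    obtain ⟨ky, hky⟩ := hex y hyA hyK (row y) (hrow y)
    obtain ⟨vy, hvy⟩ := hne_row y ky
    have hpn : (Finset.univ.filter fun k => ∃ v ∈ X, v ∈ p k).card ≤ n x := by
      rcases hp with rfl | rfl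
      · exact hrow x
      · exact hcol x
    have hqn : (Finset.univ.filter fun k => ∃ v ∈ X, v ∈ q k).card ≤ n y := by
      rcases hq with rfl | rfl
      · exact hrow y
      · exact hcol y
    have hqn' : (Finset.univ.filter fun k => ∃ v ∈ X, v ∈ q (σ k)).card ≤ n y := by
      refine le_trans ?_ hqn
      apply Finset.card_le_card_of_injOn σ
      · intro k hk
        have hk' := Finset.mem_coe.1 hk
        rw [Finset.mem_filter] at hk'
        exact Finset.mem_coe.2 (Finset.mem_filter.2 ⟨Finset.mem_univ _, hk'.2⟩)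
      · exact fun _ _ _ _ hh => σ.injective hh
    have hnx : 2 * n x < t := by
      by_contra hcon
      exact hxK ((hK x).2 ⟨hxA, by omega⟩)
    have hny : 2 * n y < t := by
      by_contra hcon
      exact hyK ((hK y).2 ⟨hyA, by omega⟩)
    have hgood : ∃ k, (¬ ∃ v ∈ X, v ∈ p k) ∧ ¬ ∃ v ∈ X, v ∈ q (σ k) := by
      by_contra hcon
      push Not at hcon
      have h1 : (Finset.univ : Finset (Fin t)) ⊆
          (Finset.univ.filter fun k => ∃ v ∈ X, v ∈ p k) ∪
            (Finset.univ.filter fun k => ∃ v ∈ X, v ∈ q (σ k)) := by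
        intro k _
        rw [Finset.mem_union, Finset.mem_filter, Finset.mem_filter]
        by_cases hk : ∃ v ∈ X, v ∈ p k
        · exact Or.inl ⟨Finset.mem_univ _, hk⟩
        · right
          refine ⟨Finset.mem_univ _, ?_⟩
          exact hcon k (by push Not at hk; exact hk)
      have h2 := Finset.card_le_card h1
      have h3 := Finset.card_union_le (Finset.univ.filter fun k => ∃ v ∈ X, v ∈ p k)
        (Finset.univ.filter fun k => ∃ v ∈ X, v ∈ q (σ k))
      rw [Finset.card_univ, Fintype.card_fin] at h2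
      omega
    obtain ⟨k, hk1, hk2⟩ := hgood
    obtain ⟨u, hu, v, hv, huv⟩ := hσ k
    have huS : u ∈ S := by
      have h1 := (hS1 x hxA hxK kx hkx vx hvx).1 (hxS kx hkx vx hvx)
      rcases hp with rfl | rfl
      · exact h1.1 k hk1 u hu
      · exact h1.2 k hk1 u hu
    have hvT : v ∈ T := by
      have h1 := (hS1 y hyA hyK ky hky vy hvy).2 (hyT ky hky vy hvy)
      rcases hq with rfl | rfl
      · exact h1.1 (σ k) hk2 v hv
      · exact h1.2 (σ k) hk2 v hv
    exact hno u huS v hvT huv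
  -- counting of the terminals
  have hbX : (Finset.univ.filter fun q : Fin m × Fin t =>
      ∃ v ∈ X, v ∈ row (a q.1) q.2).card ≤ s := by
    refine le_trans (FAT_count X (fun q : Fin m × Fin t => row (a q.1) q.2) (fun _ => True) ?_
      (fun _ _ _ => trivial)) ?_
    · intro q q' hqq
      by_cases h1 : q.1 = q'.1
      · have h2 : q.2 ≠ q'.2 := fun h2 => hqq (Prod.ext h1 h2)
        show Disjoint (row (a q.1) q.2) (row (a q'.1) q'.2)
        rw [h1]
        exact h.disj_row _ _ _ h2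
      · have h2 : a q.1 ≠ a q'.1 := fun h2 => h1 (ha h2)
        exact (h.disj _ _ h2 q.2 q'.2).mono Set.subset_union_left Set.subset_union_left
    · exact (Finset.card_filter_le _ _).trans hX
  have hbK : (Finset.univ.filter fun q : Fin m × Fin t => a q.1 ∈ K).card ≤ t * K.card := by
    have h1 : (Finset.univ.filter fun q : Fin m × Fin t => a q.1 ∈ K) =
        (Finset.univ.filter fun i : Fin m => a i ∈ K) ×ˢ (Finset.univ : Finset (Fin t)) := by
      ext q
      simp
    rw [h1, Finset.card_product, Finset.card_univ, Fintype.card_fin, mul_comm]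
    apply Nat.mul_le_mul_left
    apply Finset.card_le_card_of_injOn a
    · intro i hi
      exact Finset.mem_coe.2 (Finset.mem_filter.1 (Finset.mem_coe.1 hi)).2
    · exact fun _ _ _ _ hh => ha hh
  have hbS : ∀ S'' : Finset W, (Finset.univ.filter fun q : Fin m × Fin t => a q.1 ∈ S'').card =
      t * (Finset.univ.filter fun i : Fin m => a i ∈ S'').card := by
    intro S''
    have h1 : (Finset.univ.filter fun q : Fin m × Fin t => a q.1 ∈ S'') =
        (Finset.univ.filter fun i : Fin m => a i ∈ S'') ×ˢ (Finset.univ : Finset (Fin t)) := by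
      ext q
      simp
    rw [h1, Finset.card_product, Finset.card_univ, Fintype.card_fin, mul_comm]
  have hfin : ∀ (U : Finset V) (U' : Finset W),
      (∀ x ∈ A, x ∉ K → ∀ k, (¬ ∃ v ∈ X, v ∈ row x k) → ∀ u ∈ row x k, u ∈ U → x ∈ U') →
      m * t ≤ 3 * ((Finset.univ.filter fun q => b q ∈ U).card + s) →
      m < 4 * (Finset.univ.filter fun i => a i ∈ U').card := by
    intro U U' hU hc
    have h1 : (Finset.univ.filter fun q => b q ∈ U) ⊆
        (Finset.univ.filter fun q : Fin m × Fin t => a q.1 ∈ U') ∪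
          ((Finset.univ.filter fun q : Fin m × Fin t => a q.1 ∈ K) ∪
            (Finset.univ.filter fun q : Fin m × Fin t => ∃ v ∈ X, v ∈ row (a q.1) q.2)) := by
      intro q hq
      rw [Finset.mem_filter] at hq
      rw [Finset.mem_union, Finset.mem_union, Finset.mem_filter, Finset.mem_filter,
        Finset.mem_filter]
      by_cases h2 : a q.1 ∈ K
      · exact Or.inr (Or.inl ⟨Finset.mem_univ _, h2⟩)
      · by_cases h3 : ∃ v ∈ X, v ∈ row (a q.1) q.2
        · exact Or.inr (Or.inr ⟨Finset.mem_univ _, h3⟩)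
        · exact Or.inl ⟨Finset.mem_univ _, hU _ (haA _) h2 q.2 h3 (b q) (hb q) hq.2⟩
    have h2 := Finset.card_le_card h1
    have h3 := Finset.card_union_le
      (Finset.univ.filter fun q : Fin m × Fin t => a q.1 ∈ U')
      ((Finset.univ.filter fun q : Fin m × Fin t => a q.1 ∈ K) ∪
            (Finset.univ.filter fun q : Fin m × Fin t => ∃ v ∈ X, v ∈ row (a q.1) q.2))
    have h4 := Finset.card_union_le
      (Finset.univ.filter fun q : Fin m × Fin t => a q.1 ∈ K)
            (Finset.univ.filter fun q : Fin m × Fin t => ∃ v ∈ X, v ∈ row (a q.1) q.2)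
    rw [hbS U'] at h3
    set N := (Finset.univ.filter fun i => a i ∈ U').card with hN
    by_contra hcon
    have h5 : 4 * N ≤ m := by omega
    have h6 : 4 * N * t ≤ m * t := Nat.mul_le_mul_right t h5
    nlinarith
  exact hS K S' T' hunion hdis hSK hTK hKz hnoM ⟨hfin S S' hmemS hcS, hfin T T' hmemT hcT⟩

theorem fat {V W : Type*} [Fintype V] [Fintype W] {M : SimpleGraph W} {G : SimpleGraph V}
    {t : ℕ} (ht : 1 ≤ t) {row col : W → Fin t → Set V} (h : Thick M G t row col) {A : Finset W}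
    {m z s : ℕ} {a : Fin m → W} (hm : 1 ≤ m) (ha : Function.Injective a) (haA : ∀ i, a i ∈ A)
    (hS : SepP M A a z) (hs1 : 2 * s < (z + 1) * t) (hs2 : 48 * s < m * t) :
    ¬ HasTD (G.induce (part row col (A : Set W))) s := by
  intro hTD
  have hne : ∀ q : Fin m × Fin t, ∃ v, v ∈ row (a q.1) q.2 := by
    intro q
    obtain ⟨v⟩ := (h.conn_row (a q.1) q.2).nonempty
    exact ⟨v.1, v.2⟩
  choose b hb using hne
  have hbD : ∀ q, b q ∈ part row col (A : Set W) := fun q =>
    ⟨a q.1, by exact_mod_cast haA q.1, q.2, Or.inl (hb q)⟩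
  have hinj : Function.Injective b := by
    intro q q' hqq
    by_contra hne
    have hd : Disjoint (row (a q.1) q.2) (row (a q'.1) q'.2) := by
      by_cases h1 : q.1 = q'.1
      · have h2 : q.2 ≠ q'.2 := fun h2 => hne (Prod.ext h1 h2)
        rw [h1]
        exact h.disj_row _ _ _ h2
      · have h2 : a q.1 ≠ a q'.1 := fun h2 => h1 (ha h2)
        exact (h.disj _ _ h2 q.2 q'.2).mono Set.subset_union_left Set.subset_union_left
    exact Set.disjoint_left.1 hd (hb q) (hqq ▸ hb q')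
  have : Nonempty (Fin m × Fin t) := ⟨(⟨0, hm⟩, ⟨0, ht⟩)⟩
  obtain ⟨X, S, T, hX, hun, hST, hSX, hTX, hno, hcS, hcT⟩ :=
    exists_sep hTD (ι := Fin m × Fin t)
      (a := fun q => (⟨b q, hbD q⟩ : (part row col (A : Set W) : Set V)))
      (fun q q' hqq => hinj (congrArg Subtype.val hqq))
  have hcard : Fintype.card (Fin m × Fin t) = m * t := by simp
  rw [hcard] at hcS hcT
  have hmap : ∀ (U : Finset (part row col (A : Set W) : Set V)) (q : Fin m × Fin t),
      b q ∈ U.map (Function.Embedding.subtype _) ↔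
        (⟨b q, hbD q⟩ : (part row col (A : Set W) : Set V)) ∈ U := by
    intro U q
    rw [Finset.mem_map]
    constructor
    · rintro ⟨v, hv, hvq⟩
      have : v = ⟨b q, hbD q⟩ := Subtype.ext hvq
      rwa [← this]
    · intro hv
      exact ⟨_, hv, rfl⟩
  refine FAT_core ht h (A := A) (z := z) (s := s) (a := a) ha haA hS hs1 hs2
    (X := X.map (Function.Embedding.subtype _)) (S := S.map (Function.Embedding.subtype _))
    (T := T.map (Function.Embedding.subtype _)) ?_ ?_ ?_ ?_ b hb ?_ ?_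
  · rw [Finset.card_map]; exact hX
  · intro x hx k v hv
    have hvD : v ∈ part row col (A : Set W) := ⟨x, by exact_mod_cast hx, k, hv⟩
    have h1 := Finset.mem_univ (⟨v, hvD⟩ : (part row col (A : Set W) : Set V))
    rw [← hun] at h1
    have h2 : ∀ U U' : Finset (part row col (A : Set W) : Set V), ∀ u,
        u ∈ @Union.union _ (@Finset.instUnion _ (fun a b => propDecidable (a = b))) U U' →
          u ∈ U ∨ u ∈ U' := by
      intro U U' u hu
      exact (@Finset.mem_union _ (fun a b => propDecidable (a = b)) U U' u).1 hu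
    replace h1 := (h2 _ _ _ h1).imp_left (h2 _ _ _)
    rcases h1 with (h1 | h1) | h1
    · exact Or.inl (Finset.mem_map.2 ⟨_, h1, rfl⟩)
    · exact Or.inr (Or.inl (Finset.mem_map.2 ⟨_, h1, rfl⟩))
    · exact Or.inr (Or.inr (Finset.mem_map.2 ⟨_, h1, rfl⟩))
  · intro v hv hv'
    obtain ⟨u, hu, rfl⟩ := Finset.mem_map.1 hv
    obtain ⟨u', hu', huu⟩ := Finset.mem_map.1 hv'
    have : u' = u := Subtype.ext huu
    subst this
    exact Finset.disjoint_left.1 hST hu hu'
  · intro u hu v hv huv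
    obtain ⟨u', hu', rfl⟩ := Finset.mem_map.1 hu
    obtain ⟨v', hv', rfl⟩ := Finset.mem_map.1 hv
    exact hno u' hu' v' hv' huv
  · convert hcS using 5
    exact hmap S _
  · convert hcT using 5
    exact hmap T _

end Pool.Agent.TWS
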