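import Mathlib
import Pool.Agent.TWS.Defs

/-!
TWS, module MOD: minors and deletion of vertices.

`of_model`: the new bags are `{x | φ x ∩ bag i ≠ ∅}` (at most as many elements, the `φ x` are
disjoint). The set of the nodes for `x` is the union over `v ∈ φ x` of the connected sets of the nodes
of `v`; adjacent vertices share a node, and `φ x` is connected. `of_compl`: add `Y` to all bags (the
nodes for `v ∈ Y` are all nodes, a connected set).
-/

set_option autoImplicit false

open Classical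

namespace Pool.Agent.TWS

theorem HasTD.of_model {V W : Type*} [Finite V] {M : SimpleGraph W} {G : SimpleGraph V}
    {φ : W → Set V} (h : Model M G φ) {k : ℕ} (hk : HasTD G k) : HasTD M k := by
  obtain ⟨m, T, bag, hT, h1, h2, h3, h4⟩ := hk
  refine ⟨m, T, fun i => {x | (φ x ∩ bag i).Nonempty}, hT, ?_, ?_, ?_, ?_⟩
  · intro x
    obtain ⟨v⟩ := (h.conn x).nonempty
    obtain ⟨i, hi⟩ := h1 v
    exact ⟨i, v, v.2, hi⟩
  · intro x y hxy
    obtain ⟨u, hu, v, hv, huv⟩ := h.adj x y hxy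
    obtain ⟨i, hi, hi'⟩ := h2 u v huv
    exact ⟨i, ⟨u, hu, hi⟩, ⟨v, hv, hi'⟩⟩
  · intro x
    set S : Set (Fin m) := {i | x ∈ {x | (φ x ∩ bag i).Nonempty}} with hS
    have memS : ∀ (a : V) (ha : a ∈ φ x) (i : Fin m), a ∈ bag i → i ∈ S := by
      intro a ha i hi
      exact ⟨a, ha, hi⟩
    have key : ∀ {a b : (φ x : Set V)} (_ : (G.induce (φ x)).Walk a b) (i j : Fin m)
        (hi : (a : V) ∈ bag i) (hj : (b : V) ∈ bag j),
        (T.induce S).Reachable ⟨i, memS a a.2 i hi⟩ ⟨j, memS b b.2 j hj⟩ := by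
      intro a b p
      have base : ∀ (c : (φ x : Set V)) (i j : Fin m) (hi : (c : V) ∈ bag i)
          (hj : (c : V) ∈ bag j),
          (T.induce S).Reachable ⟨i, memS c c.2 i hi⟩ ⟨j, memS c c.2 j hj⟩ := by
        intro c i j hi hj
        have hsub : {i | (c : V) ∈ bag i} ≤ S := fun i hi => memS c c.2 i hi
        have hr := (h3 c).preconnected ⟨i, hi⟩ ⟨j, hj⟩
        exact hr.map (SimpleGraph.induceHomOfLE T hsub).toHom
      induction p with
      | nil => exact base _
      | @cons a c b hac _ ih =>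
        intro i j hi hj
        obtain ⟨l, hl, hl'⟩ := h2 a c hac
        exact (base a i l hi hl).trans (ih l j hl' hj)
    obtain ⟨v⟩ := (h.conn x).nonempty
    obtain ⟨i0, hi0⟩ := h1 v
    refine (SimpleGraph.connected_iff _).2 ⟨?_, ⟨⟨i0, memS v v.2 i0 hi0⟩⟩⟩
    rintro ⟨i, a, ha, hi⟩ ⟨j, b, hb, hj⟩
    obtain ⟨p⟩ := (h.conn x).preconnected ⟨a, ha⟩ ⟨b, hb⟩
    exact key p i j hi hj
  · intro i
    refine le_trans ?_ (h4 i)
    have hch : ∀ x : W, ∃ v : V, x ∈ {x | (φ x ∩ bag i).Nonempty} → v ∈ φ x ∩ bag i := by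
      intro x
      by_cases hx : (φ x ∩ bag i).Nonempty
      · obtain ⟨v, hv⟩ := hx
        exact ⟨v, fun _ => hv⟩
      · obtain ⟨v⟩ := (h.conn x).nonempty
        exact ⟨v, fun hx' => absurd hx' hx⟩
    choose f hf using hch
    refine Set.ncard_le_ncard_of_injOn f (fun x hx => (hf x hx).2) ?_ (Set.toFinite _)
    intro x hx y hy hxy
    by_contra hne
    have hx' := (hf x hx).1
    have hy' := (hf y hy).1
    rw [← hxy] at hy'
    exact Set.disjoint_left.1 (h.disj x y hne) hx' hy'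

theorem HasTD.of_compl {V : Type*} [Finite V] {G : SimpleGraph V} {Y : Set V} {k : ℕ}
    (hk : HasTD (G.induce Yᶜ) k) : HasTD G (k + Y.ncard) := by
  obtain ⟨m, T, bag, hT, h1, h2, h3, h4⟩ := hk
  obtain ⟨i0⟩ := hT.connected.nonempty
  have hmem : ∀ v, ∃ i, v ∈ Subtype.val '' (bag i) ∪ Y := by
    intro v
    by_cases hv : v ∈ Y
    · exact ⟨i0, Or.inr hv⟩
    · obtain ⟨i, hi⟩ := h1 ⟨v, hv⟩
      exact ⟨i, Or.inl ⟨⟨v, hv⟩, hi, rfl⟩⟩
  refine ⟨m, T, fun i => Subtype.val '' (bag i) ∪ Y, hT, hmem, ?_, ?_, ?_⟩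
  · intro u v huv
    by_cases hu : u ∈ Y
    · obtain ⟨i, hi⟩ := hmem v
      exact ⟨i, Or.inr hu, hi⟩
    · by_cases hv : v ∈ Y
      · obtain ⟨i, hi⟩ := hmem u
        exact ⟨i, hi, Or.inr hv⟩
      · obtain ⟨i, hi, hi'⟩ := h2 ⟨u, hu⟩ ⟨v, hv⟩ huv
        exact ⟨i, Or.inl ⟨_, hi, rfl⟩, Or.inl ⟨_, hi', rfl⟩⟩
  · intro v
    by_cases hv : v ∈ Y
    · have e : {i | v ∈ Subtype.val '' (bag i) ∪ Y} = Set.univ := by
        ext i
        simp [hv]
      rw [e]
      exact (SimpleGraph.induceUnivIso T).connected_iff.2 hT.connected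
    · have e : {i | v ∈ Subtype.val '' (bag i) ∪ Y} = {i | (⟨v, hv⟩ : (Yᶜ : Set V)) ∈ bag i} := by
        ext i
        constructor
        · rintro (⟨w, hw, rfl⟩ | h)
          · exact hw
          · exact absurd h hv
        · intro h
          exact Or.inl ⟨_, h, rfl⟩
      rw [e]
      exact h3 ⟨v, hv⟩
  · intro i
    refine (Set.ncard_union_le _ _).trans ?_
    rw [Set.ncard_image_of_injective _ Subtype.val_injective]
    exact Nat.add_le_add_right (h4 i) _

theorem model_of_inj {V W : Type*} {M : SimpleGraph W} {G : SimpleGraph V} (f : W → V)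
    (hf : Function.Injective f) (hadj : ∀ x y, M.Adj x y → G.Adj (f x) (f y)) :
    Model M G (fun x => {f x}) where
  conn x := by
    have h1 : Subsingleton ({f x} : Set V) := by
      constructor
      rintro ⟨a, ha⟩ ⟨b, hb⟩
      simp at ha hb
      simp [ha, hb]
    have h2 : Nonempty ({f x} : Set V) := ⟨⟨f x, rfl⟩⟩
    exact (SimpleGraph.connected_iff _).2 ⟨SimpleGraph.Preconnected.of_subsingleton, h2⟩
  disj x y hne := by
    rw [Set.disjoint_singleton]
    exact fun h => hne (hf h)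
  adj x y hxy := ⟨f x, rfl, f y, rfl, hadj x y hxy⟩

theorem HasTD.of_subset {V : Type*} [Finite V] {G : SimpleGraph V} {Y Y' : Set V} (h : Y ⊆ Y')
    {k : ℕ} (hk : HasTD (G.induce Y') k) : HasTD (G.induce Y) k := by
  refine HasTD.of_model (model_of_inj (fun x : Y => (⟨x.1, h x.2⟩ : Y')) ?_ ?_) hk
  · intro x y hxy
    have := congrArg Subtype.val hxy
    exact Subtype.ext this
  · intro x y hxy
    exact hxy

/-- Two ways to induce the same graph. -/
theorem HasTD.of_induce {V : Type*} [Finite V] {G : SimpleGraph V} {Y : Set V} {A : Set Y}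
    {k : ℕ} (hk : HasTD (G.induce (Subtype.val '' A)) k) : HasTD ((G.induce Y).induce A) k := by
  refine HasTD.of_model (model_of_inj
    (fun x : A => (⟨x.1.1, ⟨x.1, x.2, rfl⟩⟩ : (Subtype.val '' A : Set V))) ?_ ?_) hk
  · intro x y hxy
    have := congrArg Subtype.val hxy
    exact Subtype.ext (Subtype.ext this)
  · intro x y hxy
    exact hxy

theorem not_hasTD_zero {V : Type*} [Nonempty V] [Finite V] (G : SimpleGraph V) :
    ¬ HasTD G 0 := by
  rintro ⟨m, T, bag, -, h1, -, -, h4⟩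
  obtain ⟨v⟩ := ‹Nonempty V›
  obtain ⟨i, hi⟩ := h1 v
  have h := h4 i
  have h5 : (bag i).ncard = 0 := by omega
  rw [Set.ncard_eq_zero (Set.toFinite _)] at h5
  rw [h5] at hi
  exact hi

end Pool.Agent.TWS
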